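import Pool.Agent.P.MP_a14ce1_nt.Nil.Pl.St

/-! The core of the plain step on the concrete weight and classes. -/

open Finset Function

namespace Pool.Agent.P.MP_a14ce1_nt.Pl

open Ch (rs)
open Nil.ES
open IV (Hull Gr App Up Ep)
open Ax (At PW hull sv pc)

namespace Conc

theorem FsN_mono {μ : Wt ℕ} {X : Set (ℕ → ℂ)} {c : ℕ} {γ : Pr} {ε ε' : ℝ} (h : FsN μ X c γ ε)
    (he : ε ≤ ε') : FsN μ X c γ ε' := fun φ hφ ψ hψ => (h φ hφ ψ hψ).trans he

theorem FsC_mono {ι : Type} [Fintype ι] [DecidableEq ι] {μ : Wt ℕ} {X : Set (ℕ → ℂ)} {c : ℕ}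
    {g : ι → Pr} {D : Finset ι} {ε ε' : ℝ} (h : FsC μ X c g D ε) (he : ε ≤ ε') :
    FsC μ X c g D ε' := fun φ hφ ψ hψ => (h φ hφ ψ hψ).trans he

theorem ExtN_mono {μ : Wt ℕ} {X : Set (ℕ → ℂ)} {c : ℕ} {γ γ' : Pr} {ε ε' : ℝ}
    (h : ExtN μ X c γ γ' ε) (he : ε ≤ ε') : ExtN μ X c γ γ' ε' := fun χ ψ hχ hψ => by
  obtain ⟨U, h1, h2⟩ := h χ ψ hχ hψ
  exact ⟨U, h1, h2.trans (by linarith)⟩

theorem lv_mono {ι : Type} [DecidableEq ι] {S T : Finset ι} (h : S ⊆ T) {a : ι → ℕ}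
    (ha : ∀ k ∈ T, 0 < a k) : lv S a ≤ lv T a :=
  prod_le_prod_of_subset_of_one_le' h fun k hk _ => ha k hk

theorem lv_pos {ι : Type} {S : Finset ι} {a : ι → ℕ} (ha : ∀ k ∈ S, 0 < a k) : 0 < lv S a :=
  prod_pos ha

theorem update_mem {ι : Type} [Fintype ι] [DecidableEq ι] {g : ι → Pr} {a : ι → ℕ}
    (ha : a ∈ supp g) {j : ι} {p : ℕ} (hp : p ∈ (g j).s) : update a j p ∈ supp g := by
  rw [mem_supp] at ha ⊢
  intro k
  by_cases hk : k = j
  · subst hk; simpa using hp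
  · simpa [hk] using ha k

/-- the hypotheses of one cube from sampling and extension under size conditions -/
theorem top {ι : Type} [Fintype ι] [DecidableEq ι] {μ : Wt ℕ} {X : Set (ℕ → ℂ)} {g : ι → Pr}
    {o : ι} {St : Finset ι} {γ0 : Pr} {ε : ℝ} {ok : Pr → Prop} {y e R : ℕ} (hε : 0 ≤ ε)
    (hy : 1 ≤ y) (he : 1 ≤ e)
    (hm : ∀ c : ℕ, 0 < c → c ≤ R → mass μ c ≤ 2)
    (hf : ∀ γ c, ok γ → 0 < c → (∀ p ∈ γ.s, c * p * y ≤ R) → FsN μ X c γ ε)
    (hx : ∀ γ γ' c, ok γ → ok γ' → Disjoint γ.s γ'.s → 0 < c →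
      (∀ p ∈ γ.s, ∀ v ∈ γ'.s, c * p * v ^ e * y ≤ R) → ExtN μ X c γ γ' ε)
    (hok : ∀ k ∈ St, ok (g k)) (hok0 : ok γ0) (hpos : ∀ k ∈ St, ∀ p ∈ (g k).s, 0 < p)
    (hd : ∀ k ∈ St, ∀ j ∈ St, k ≠ j → Disjoint (g k).s (g j).s)
    (hd0 : ∀ k ∈ St, Disjoint (g k).s γ0.s)
    (hs : ∀ j ∈ St, j ≠ o → ∀ v ∈ (g j).s, v ≤ y ^ 2) (hs0 : ∀ v ∈ γ0.s, v ≤ y ^ 2)
    (ht : ∀ a ∈ supp g, lv St a * y ^ (2 * e + 1) ≤ R) : Top μ X g {o} St (3 * ε) := by
  have pos : ∀ a ∈ supp g, ∀ k ∈ St, 0 < a k := fun a ha k hk => hpos k hk _ (mem_supp.1 ha k)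
  have y1 : ∀ n : ℕ, 1 ≤ y ^ n := fun n => Nat.one_le_pow _ _ hy
  have key : ∀ a ∈ supp g, ∀ S : Finset ι, S ⊆ St → ∀ j ∈ St, j ∉ S → ∀ p ∈ (g j).s,
      ∀ z : ℕ, z ≤ y ^ (2 * e + 1) → lv S a * p * z ≤ R := by
    intro a ha S hS j hj hjS p hp z hz
    have h1 := update_mem ha hp
    rw [← lv_insert_update hjS]
    exact (Nat.mul_le_mul (lv_mono (insert_subset hj hS) (pos _ h1)) hz).trans (ht _ h1)
  have pw : ∀ v : ℕ, v ≤ y ^ 2 → v ^ e * y ≤ y ^ (2 * e + 1) := fun v hv => by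
    rw [pow_succ, pow_mul]
    exact Nat.mul_le_mul_right _ (Nat.pow_le_pow_left hv _)
  have pw1 : ∀ v : ℕ, v ≤ y ^ 2 → v * y ≤ y ^ (2 * e + 1) := fun v hv => by
    refine (Nat.mul_le_mul_right _ hv).trans ?_
    rw [← pow_succ]
    exact Nat.pow_le_pow_right hy (by omega)
  have e3 : ε ≤ 3 * ε := by linarith
  refine ⟨fun a ha => hm _ (lv_pos (pos a ha)) ?_, fun a ha S j hj hS hjS => ?_,
    fun a ha k hk => ?_, fun a ha S k hk j hj hS hkS hjS h0 => ?_⟩
  · exact (Nat.le_mul_of_pos_right _ (y1 _)).trans (ht a ha)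
  · refine FsN_mono (hf _ _ (hok j hj) (lv_pos fun k hk => pos a ha k (hS hk)) fun p hp => ?_) e3
    refine key a ha S hS j hj hjS p hp y ?_
    conv_lhs => rw [← pow_one y]
    exact Nat.pow_le_pow_right hy (by omega)
  · have hc : 0 < lv (St.erase k) a := lv_pos fun j hj => pos a ha j (mem_of_mem_erase hj)
    have h1 := hx (g k) γ0 _ (hok k hk) hok0 (hd0 k hk) hc fun p hp v hv => by
      rw [mul_assoc _ (v ^ e)]
      exact key a ha _ (erase_subset _ _) k hk (notMem_erase _ _) p hp _ (pw v (hs0 v hv))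
    have h2 := hf γ0 _ hok0 hc fun v hv => by
      rw [mul_assoc]
      exact (Nat.mul_le_mul (lv_mono (erase_subset _ _) (pos a ha)) (pw1 v (hs0 v hv))).trans
        (ht a ha)
    have h3 : ∀ p ∈ (g k).s, FsN μ X (lv (St.erase k) a * p) γ0 ε := fun p hp =>
      hf γ0 _ hok0 (Nat.mul_pos hc (hpos k hk p hp)) fun v hv => by
        rw [mul_assoc _ v]
        exact key a ha _ (erase_subset _ _) k hk (notMem_erase _ _) p hp _ (pw1 v (hs0 v hv))
    exact ExtN_mono (h1.unit h2 h3) (by linarith)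
  · have hjo : j ≠ o := fun h => hjS (h0 (by simp [h]))
    have hkj : k ≠ j := fun h => hjS (by simp [h])
    refine ExtN_mono (hx _ _ _ (hok k hk) (hok j hj) (hd k hk j hj hkj)
      (lv_pos fun i hi => pos a ha i (hS hi)) fun p hp v hv => ?_) e3
    rw [mul_assoc _ (v ^ e)]
    exact key a ha S hS k hk hkS p hp _ (pw v (hs j hj hjo v hv))

theorem pw_prOf {P : Finset ℕ} (h : 0 < rs P) {Q : ℝ} {C : ℕ} (h1 : ∀ p ∈ P, p.Prime)
    (h2 : 1 ≤ Q * rs P) (h3 : ∀ p ∈ P, Q ^ C ≤ (p : ℝ)) (h4 : ∀ p ∈ P, Real.log p ≤ Q) :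
    PW Q C (prOf P h).s (prOf P h).w ∧ ∀ p ∈ P, (prOf P h).w p * p = 1 / rs P := by
  have e : ∀ p ∈ P, (prOf P h).w p * p = 1 / rs P := fun p hp => by
    have : (p : ℝ) ≠ 0 := by exact_mod_cast (h1 p hp).ne_zero
    change 1 / (p * rs P) * p = _
    field_simp
  refine ⟨⟨h1, fun p _ => (prOf P h).nn p, (prOf P h).one, fun p hp => ?_, h3, h4⟩, e⟩
  rw [e p hp, div_le_iff₀ h]
  exact h2

/-- the small coordinates -/
def Sa (l : ℕ) : Finset (Fin l ⊕ Bool) := univ.map Embedding.inl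

theorem mem_Sa {l : ℕ} {k : Fin l ⊕ Bool} : k ∈ Sa l ↔ ∃ j, Sum.inl j = k := by simp [Sa]

theorem lv_Sa {l : ℕ} (a : Fin l ⊕ Bool → ℕ) : lv (Sa l) a = ∏ k, a (Sum.inl k) := by
  rw [lv, Sa, prod_map]; rfl

theorem inr_notMem {l : ℕ} (b : Bool) : Sum.inr b ∉ Sa l := by simp [mem_Sa]

theorem card_Sa (l : ℕ) : (Sa l).card = l := by simp [Sa]

theorem lv_top {l : ℕ} (a : Fin l ⊕ Bool → ℕ) :
    lv (insert (Sum.inr true) (Sa l)) a = a (Sum.inr true) * ∏ k, a (Sum.inl k) := by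
  rw [lv_insert (inr_notMem _), lv_Sa, mul_comm]

theorem cast_le {Q y n R C : ℕ} (h : Q ^ (10 * C) ≤ y) (hn : n * y ≤ R) :
    (n : ℝ) * ((Q : ℝ) ^ 10) ^ C ≤ R := by
  rw [← pow_mul]
  exact_mod_cast (Nat.mul_le_mul_left n h).trans hn

end Conc

open Conc in
theorem conc (hK : Nil.ES.S_Core) (hB : S_Basic) (hF : S_FsExt) (hC : S_FsC) (hH : IV.S_Hull) :
    S_Conc := by
  intro A hA
  obtain ⟨C0, hC0, hF⟩ := hF A hA
  obtain ⟨C1, hC⟩ := hC A hA.atm hA.conv
  obtain ⟨b1, b2, -, -, b5⟩ := hB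
  refine ⟨10 ^ 16 + 10 * C0 + 10 * C1, by positivity, ?_⟩
  set C := 10 ^ 16 + 10 * C0 + 10 * C1 with hCd
  intro Q y l β m r0 B n Z G G0 P rk s hl hβ hQ hy hrk hG hG0 dG dG0 mG mG0 mono dP hP mP sP hZ
    hr1 hr2 hdiv hBig hn hs f F F' v e hf hFF hv δ hδ hbr
  have C2 : 10 ^ 16 ≤ C := by omega
  have hQ16 : (10 ^ 16) ^ l ≤ Q :=
    (Nat.pow_le_pow_left (C2.trans (Nat.le_mul_of_pos_right _ hβ)) l).trans hQ
  have hQ2 : 2 ≤ Q :=
    le_trans (le_trans (by norm_num) (Nat.le_self_pow (by omega) (10 ^ 16))) hQ16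
  have hβQ : (2 * β) ^ l ≤ Q :=
    (Nat.pow_le_pow_left (Nat.mul_le_mul_right _ (by omega)) l).trans hQ
  have hβQ' : β ≤ Q := le_trans (le_trans (by omega) (Nat.le_self_pow (by omega) (2 * β))) hβQ
  have y0 : Q ^ (10 * C0) ≤ y := (Nat.pow_le_pow_right (by omega) (by omega)).trans hy
  have y1 : Q ^ (10 * C1) ≤ y := (Nat.pow_le_pow_right (by omega) (by omega)).trans hy
  have y10 : Q ^ 10 ≤ y := (Nat.pow_le_pow_right (by omega) (by omega)).trans hy
  have y2 : 2 ≤ y := (hQ2.trans (Nat.le_self_pow (by omega) Q)).trans y10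
  have Q2 : (2 : ℝ) ≤ Q := by exact_mod_cast hQ2
  have Q10 : (Q : ℝ) ^ 2 ≤ (Q : ℝ) ^ 10 := pow_le_pow_right₀ (by linarith) (by norm_num)
  have Q1 : (Q : ℝ) ≤ (Q : ℝ) ^ 10 := le_self_pow₀ (by linarith) (by norm_num)
  have βR : (0 : ℝ) < β := by exact_mod_cast hβ
  have βQ : (β : ℝ) ≤ (Q : ℝ) ^ 10 := le_trans (by exact_mod_cast hβQ') Q1
  have posG : ∀ S : Finset ℕ, 1 ≤ β * rs S → 0 < rs S := fun S h =>
    (pos_iff_pos_of_mul_pos (lt_of_lt_of_le one_pos h)).1 βR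
  have posP : ∀ i, 0 < rs (P i) := fun i => lt_of_lt_of_le (by positivity) (mP i).1
  have neP : ∀ i, (P i).Nonempty := fun i => by
    rw [nonempty_iff_ne_empty]
    intro h
    have := posP i
    simp [h, rs] at this
  have rk0 : ∀ i, y ^ 2 < 2 ^ rk i := fun i =>
    hrk.trans_le (Nat.pow_le_pow_right (by norm_num) (mono (Fin.zero_le i)))
  have rkZ : ∀ i, 2 ^ rk i ≤ Z := fun i => by
    obtain ⟨q, hq⟩ := neP i
    exact (hP i q hq).2.1.trans (hP i q hq).2.2.2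
  have yZ : y ^ 2 ≤ Z := (rk0 0).le.trans (rkZ 0)
  have yy : y ≤ y ^ 2 := Nat.le_self_pow (by norm_num) y
  have Z1 : 1 ≤ Z := by omega
  have logZ : ∀ p : ℕ, 0 < p → p ≤ Z → Real.log p ≤ (Q : ℝ) ^ 10 := fun p hp h =>
    ((Real.log_le_log (by exact_mod_cast hp) (by exact_mod_cast h)).trans hZ).trans Q1
  have loy : ∀ (C' p : ℕ), Q ^ (10 * C') ≤ y → y ≤ p → ((Q : ℝ) ^ 10) ^ C' ≤ (p : ℝ) :=
    fun C' p h h' => by
      rw [← pow_mul]
      exact_mod_cast h.trans h'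
  have small : ∀ (S : Finset ℕ) (h : 1 ≤ β * rs S) (C' : ℕ), Q ^ (10 * C') ≤ y →
      (∀ p ∈ S, p.Prime ∧ y < p ∧ p ≤ y ^ 2) →
      PW ((Q : ℝ) ^ 10) C' (prOf S (posG S h)).s (prOf S (posG S h)).w ∧
        ∀ p ∈ S, (prOf S (posG S h)).w p * p = 1 / rs S := fun S h C' hC' hS =>
    pw_prOf _ (fun p hp => (hS p hp).1)
      (h.trans (mul_le_mul_of_nonneg_right βQ (posG S h).le))
      (fun p hp => loy C' p hC' (hS p hp).2.1.le)
      fun p hp => logZ p (hS p hp).1.pos ((hS p hp).2.2.trans yZ)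
  have big : ∀ i, PW ((Q : ℝ) ^ 10) C0 (prOf (P i) (posP i)).s (prOf (P i) (posP i)).w ∧
      ∀ p ∈ P i, (prOf (P i) (posP i)).w p * p = 1 / rs (P i) := fun i =>
    pw_prOf _ (fun p hp => (hP i p hp).1)
      (by
        have h1 := (mP i).1
        rw [div_le_iff₀ (by positivity), mul_comm] at h1
        exact h1.trans (mul_le_mul_of_nonneg_right Q10 (posP i).le))
      (fun p hp => loy C0 p y0 (yy.trans ((rk0 i).le.trans (hP i p hp).2.1)))
      fun p hp => logZ p (hP i p hp).1.pos (hP i p hp).2.2.2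
  set g : Fin l ⊕ Bool → Pr := Sum.elim (fun k => prOf (G k) (posG _ (mG k))) fun _ => Pr.unit
    with hg
  set γ : Fin (m + 1) → Pr := fun i => prOf (P i) (posP i) with hγ
  set R : Fin (m + 1) → ℕ := fun i => r0 * 2 ^ rk i with hR
  set L : ℝ := ∑ i, rs (P i) with hL
  have L0 : 0 < L := by linarith
  have memG : ∀ a : Fin l ⊕ Bool → ℕ, (∀ k ∈ Sa l, a k ∈ (g k).s) →
      (fun k => a (Sum.inl k)) ∈ Fintype.piFinset G := fun a h =>
    Fintype.mem_piFinset.2 fun k => h _ (mem_Sa.2 ⟨k, rfl⟩)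
  have up : ∀ (i) (k : Fin l), update g (Sum.inr true) (γ i) (Sum.inl k) = g (Sum.inl k) :=
    fun i k => update_of_ne (by simp) _ _
  have memU : ∀ i, ∀ a ∈ supp (update g (Sum.inr true) (γ i)),
      a (Sum.inr true) ∈ P i ∧ (fun k => a (Sum.inl k)) ∈ Fintype.piFinset G := fun i a ha => by
    rw [mem_supp] at ha
    refine ⟨by have := ha (Sum.inr true); rwa [update_self] at this,
      Fintype.mem_piFinset.2 fun k => ?_⟩
    have := ha (Sum.inl k)
    rwa [up] at this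
  have posA : ∀ a ∈ Fintype.piFinset G, 0 < ∏ k, a k := fun a ha =>
    prod_pos fun k _ => (hG k _ (Fintype.mem_piFinset.1 ha k)).1.pos
  have r0pos : 0 < r0 := by
    obtain ⟨a, ha⟩ := supp_nonempty g
    have h1 := memG a fun k _ => mem_supp.1 ha k
    exact lt_of_lt_of_le (Nat.mul_pos (posA _ h1) (by positivity)) (hr1 _ h1)
  have Rpos : ∀ i, 0 < R i := fun i => Nat.mul_pos r0pos (by positivity)
  have Bpos : 0 < B := lt_of_lt_of_le (by positivity) hBig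
  have RB : ∀ i, R i ≤ B := fun i => Nat.le_of_dvd Bpos (hdiv i)
  have r0R : ∀ i, r0 ≤ R i := fun i => Nat.le_mul_of_pos_right _ (by positivity)
  have qR : ∀ i, ∀ q ∈ P i, ∀ z : ℕ, z * y ≤ r0 → q * z ≤ R i := fun i q hq z hz => by
    have h1 := (hP i q hq).2.2.1
    rw [pow_succ] at h1
    calc q * z ≤ 2 ^ rk i * y * z := Nat.mul_le_mul_right _
          (h1.le.trans (Nat.mul_le_mul_left _ y2))
      _ = z * y * 2 ^ rk i := by ring
      _ ≤ _ := Nat.mul_le_mul_right _ hz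
  have hε : 3 * (1 / (Q : ℝ) ^ 10) ≤ (1 / (Q : ℝ) ^ 2) ^ 4 := by
    rw [one_div_pow, ← pow_mul, mul_one_div, div_le_div_iff₀ (by positivity) (by positivity),
      one_mul, show (10 : ℕ) = 2 + 2 * 4 by norm_num, pow_add]
    exact mul_le_mul_of_nonneg_right (by nlinarith) (by positivity)
  have hε1 : 1 / (Q : ℝ) ^ 10 ≤ (1 / (Q : ℝ) ^ 2) ^ 4 :=
    le_trans (by linarith [show 0 ≤ 1 / (Q : ℝ) ^ 10 by positivity]) hε
  have Q210 : (2 : ℝ) ≤ (Q : ℝ) ^ 10 := Q2.trans Q1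
  have fs : ∀ i (γ' : Pr) (c : ℕ), PW ((Q : ℝ) ^ 10) C0 γ'.s γ'.w → 0 < c →
      (∀ p ∈ γ'.s, c * p * y ≤ R i) →
      FsN (wt B n) (GX (hull A) (R i)) c γ' (1 / (Q : ℝ) ^ 10) := fun i γ' c h1 h2 h3 =>
    (hF _ Q210 γ' B n (R i) c h1 Bpos (hdiv i) hn h2).1 fun p hp => cast_le y0 (h3 p hp)
  have ex : ∀ i (γ' γ'' : Pr) (c : ℕ), PW ((Q : ℝ) ^ 10) C0 γ'.s γ'.w →
      PW ((Q : ℝ) ^ 10) C0 γ''.s γ''.w → Disjoint γ'.s γ''.s → 0 < c →
      (∀ p ∈ γ'.s, ∀ v ∈ γ''.s, c * p * v ^ C0 * y ≤ R i) →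
      ExtN (wt B n) (GX (hull A) (R i)) c γ' γ'' (1 / (Q : ℝ) ^ 10) :=
    fun i γ' γ'' c h1 h1' hd h2 h3 =>
      (hF _ Q210 γ' B n (R i) c h1 Bpos (hdiv i) hn h2).2 γ'' h1' hd
        fun p hp v hv => cast_le y0 (h3 p hp v hv)
  have fc : ∀ i (c : ℕ) (S : Finset (Fin l ⊕ Bool)), 0 < c → c * y ≤ R i →
      FsC (wt B n) (GX (hull A) (R i)) c g (Sa l \ S) ((1 / (Q : ℝ) ^ 2) ^ 4) := by
    intro i c S hc h
    have cd : (Sa l \ S).card ≤ l := (card_le_card sdiff_subset).trans (card_Sa l).le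
    refine FsC_mono (hC _ Q210 _ g _ β B n (R i) c (y ^ 2) ?_ ?_ (by exact_mod_cast hβ) ?_ ?_ Bpos
      (hdiv i) hn hc (cast_le y1 h) ?_) hε1
    · intro k hk
      obtain ⟨j, rfl⟩ := mem_Sa.1 (mem_sdiff.1 hk).1
      exact (small _ (mG j) C1 y1 (hG j)).1
    · intro k hk k' hk' hne
      obtain ⟨j, rfl⟩ := mem_Sa.1 (mem_sdiff.1 hk).1
      obtain ⟨j', rfl⟩ := mem_Sa.1 (mem_sdiff.1 hk').1
      exact dG j j' fun h => hne (by rw [h])
    · intro k hk p hp
      obtain ⟨j, rfl⟩ := mem_Sa.1 (mem_sdiff.1 hk).1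
      refine ⟨?_, (hG j p hp).2.2⟩
      refine ((small _ (mG j) C1 y1 (hG j)).2 p hp).trans_le ?_
      rw [div_le_iff₀ (posG _ (mG j))]
      exact mG j
    · refine le_trans ?_ Q1
      exact_mod_cast (Nat.pow_le_pow_right (by omega) cd).trans hβQ
    · have h1 : (y ^ 2) ^ (Sa l \ S).card * Q ^ 10 ≤ (y ^ l * Z) ^ 2 := by
        calc _ ≤ (y ^ 2) ^ l * Z ^ 2 := Nat.mul_le_mul (Nat.pow_le_pow_right (by positivity) cd)
              ((y10.trans (yy.trans yZ)).trans (Nat.le_self_pow (by norm_num) Z))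
          _ = _ := by ring
      have h2 : c ≤ r0 * (y ^ l * Z) :=
        ((Nat.le_mul_of_pos_right _ (by omega)).trans h).trans (Nat.mul_le_mul_left _
          ((rkZ i).trans (Nat.le_mul_of_pos_left _ (by positivity))))
      have h3 : c * ((y ^ 2) ^ (Sa l \ S).card * Q ^ 10) ^ C1 ≤ B := by
        refine le_trans ?_ hBig
        calc _ ≤ r0 * (y ^ l * Z) * ((y ^ l * Z) ^ 2) ^ C1 :=
              Nat.mul_le_mul h2 (Nat.pow_le_pow_left h1 _)
          _ = r0 * (y ^ l * Z) ^ (2 * C1 + 1) := by ring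
          _ ≤ _ := Nat.mul_le_mul_left _ (Nat.pow_le_pow_right (by positivity) (by omega))
      exact_mod_cast h3
  have low : ∀ a : Fin l ⊕ Bool → ℕ, (∀ k ∈ Sa l, a k ∈ (g k).s) → ∀ S ⊆ Sa l,
      S.card ≤ 2 * (l / 8) → 0 < lv S a ∧ lv S a * Z ^ C0 * y * y ≤ r0 := by
    intro a ha S hS hc
    have h1 : ∀ k ∈ S, 0 < a k ∧ a k ≤ y ^ 2 := fun k hk => by
      obtain ⟨j, rfl⟩ := mem_Sa.1 (hS hk)
      have := hG j _ (ha _ (hS hk))
      exact ⟨this.1.pos, this.2.2⟩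
    refine ⟨lv_pos fun k hk => (h1 k hk).1, le_trans ?_ hr2⟩
    have h2 : lv S a ≤ y ^ (l / 2) :=
      (prod_le_pow_card S a _ fun k hk => (h1 k hk).2).trans (by
        rw [← pow_mul]
        exact Nat.pow_le_pow_right (by omega) (by omega))
    calc _ = Z ^ C0 * lv S a * y ^ 2 := by ring
      _ ≤ _ := Nat.mul_le_mul (Nat.mul_le_mul (Nat.pow_le_pow_right Z1 (by omega)) h2)
          (Nat.pow_le_pow_right (by omega) (by omega))
  have ZC : Z ≤ Z ^ C0 := Nat.le_self_pow (by omega) Z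
  obtain ⟨a, ha, u, hu, h⟩ := hK (Fin l ⊕ Bool) (Sum.inr true) (Sum.inr false) (Sa l) m (wt B n)
    (fun i => GX (hull A) (R i)) g γ (fun i => rs (P i) / L) (l / 8) (1 / (Q : ℝ) ^ 2) (1 / L) s
    (by simp) (inr_notMem _) (inr_notMem _) (fun i => b1 _ (hH A hA.atm) _ (Rpos i))
    (fun i i' h => b2 _ _ _ (Rpos i') (Nat.mul_dvd_mul_left _ (pow_dvd_pow _ (mono h))))
    (by positivity) (by rw [div_le_one (by positivity)]; nlinarith) hs
    (by rw [div_le_one L0]; exact sP) (fun i => div_nonneg (posP i).le L0.le)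
    (by rw [← sum_div, div_self L0.ne']) (fun i => div_le_div_of_nonneg_right (mP i).2 L0.le)
    (fun i q hq => (hP i q hq).1) dP
    (fun i q hq => by
      rw [mul_assoc, (big i).2 q hq]
      have := (posP i).ne'
      exact le_of_eq (by field_simp))
    (fun a ha => by
      have h1 := memG a fun k _ => mem_supp.1 ha k
      rw [lv_Sa]
      exact b5 B n _ (posA _ h1) (((Nat.le_mul_of_pos_right _ (by positivity)).trans
        (hr1 _ h1)).trans ((r0R 0).trans (RB 0))) hn)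
    (fun i => by
      have cases : ∀ k ∈ insert (Sum.inr true) (Sa l), k = Sum.inr true ∨ ∃ j, Sum.inl j = k :=
        fun k hk => (mem_insert.1 hk).imp id mem_Sa.1
      have dbs : ∀ S : Finset ℕ, (∀ p ∈ S, p.Prime ∧ y < p ∧ p ≤ y ^ 2) → Disjoint (P i) S :=
        fun S hS => disjoint_left.2 fun q hq hq' => by
          have := (hP i q hq).2.1
          have := (hS q hq').2.2
          have := rk0 i
          omega
      have T := top (μ := wt B n) (X := GX (hull A) (R i)) (g := update g (Sum.inr true) (γ i))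
        (o := Sum.inr true) (St := insert (Sum.inr true) (Sa l)) (γ0 := prOf G0 (posG _ mG0))
        (ε := 1 / (Q : ℝ) ^ 10) (ok := fun γ' => PW ((Q : ℝ) ^ 10) C0 γ'.s γ'.w) (y := y) (e := C0)
        (R := R i) (by positivity) (by omega) hC0
        (fun c h1 h2 => b5 B n c h1 (h2.trans (RB i)) hn) (fs i) (ex i)
        (fun k hk => by
          rcases cases k hk with rfl | ⟨j, rfl⟩
          · rw [update_self]; exact (big i).1
          · rw [up]; exact (small _ (mG j) C0 y0 (hG j)).1)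
        (small _ mG0 C0 y0 hG0).1
        (fun k hk p hp => by
          rcases cases k hk with rfl | ⟨j, rfl⟩
          · rw [update_self] at hp; exact (hP i p hp).1.pos
          · rw [up] at hp; exact (hG j p hp).1.pos)
        (fun k hk k' hk' hne => by
          rcases cases k hk with rfl | ⟨j, rfl⟩ <;> rcases cases k' hk' with rfl | ⟨j', rfl⟩
          · exact absurd rfl hne
          · rw [update_self, up]; exact dbs _ (hG j')
          · rw [update_self, up]; exact (dbs _ (hG j)).symm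
          · rw [up, up]; exact dG j j' fun h => hne (by rw [h]))
        (fun k hk => by
          rcases cases k hk with rfl | ⟨j, rfl⟩
          · rw [update_self]; exact dbs _ hG0
          · rw [up]; exact dG0 j)
        (fun k hk hne p hp => by
          rcases cases k hk with rfl | ⟨j, rfl⟩
          · exact absurd rfl hne
          · rw [up] at hp; exact (hG j p hp).2.2)
        (fun p hp => (hG0 p hp).2.2)
        (fun a ha => by
          obtain ⟨h1, h2⟩ := memU i a ha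
          rw [lv_top, mul_assoc]
          refine qR i _ h1 _ (le_trans ?_ (hr1 _ h2))
          rw [mul_assoc, ← pow_succ]
          exact Nat.mul_le_mul_left _ (Nat.pow_le_pow_right (by omega) (by omega)))
      exact ⟨T.mass, fun a ha S j hj hS hjS => FsN_mono (T.fs a ha S j hj hS hjS) hε,
        fun a ha k hk => ExtN_mono (T.ext0 a ha k hk) hε,
        fun a ha S k hk j hj hS h1 h2 h3 => ExtN_mono (T.ext1 a ha S k hk j hj hS h1 h2 h3) hε⟩)
    (fun i i' _ a ha S hS hc q hq q' hq' => by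
      obtain ⟨h0, h1⟩ := low a ha S hS hc
      have t1 : ∀ z ∈ P i', lv S a * z * y * y ≤ r0 := fun z hz =>
        (Nat.mul_le_mul_right _ (Nat.mul_le_mul_right _ (Nat.mul_le_mul_left _
          ((hP i' z hz).2.2.2.trans ZC)))).trans h1
      have t2 : ∀ z ∈ P i', lv S a * z * y ≤ R i := fun z hz =>
        ((Nat.le_mul_of_pos_right _ (by omega)).trans (t1 z hz)).trans (r0R i)
      have t3 : ∀ z ∈ P i', lv S a * q * z * y ≤ R i := fun z hz =>
        le_of_eq_of_le (by ring) (qR i q hq _ (t1 z hz))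
      have p1 := (hP i q hq).1.pos
      have p2 := (hP i' q' hq').1.pos
      exact ⟨b5 B n _ (by positivity) (((Nat.le_mul_of_pos_right _ (by omega)).trans
          (t2 q' hq')).trans (RB i)) hn,
        FsN_mono (fs i _ _ (big i').1 h0 t2) hε1,
        FsN_mono (fs i _ _ (big i').1 (by positivity) t3) hε1,
        fc i _ S (by positivity) (t2 q' hq'), fc i _ S (by positivity) (t3 q' hq')⟩)
    (fun i i' hi a ha S hS hc => by
      obtain ⟨h0, h1⟩ := low a ha S hS hc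
      refine ExtN_mono (ex i _ _ _ (big i).1 (big i').1 (dP i i' hi.ne) h0
        fun q hq z hz => ?_) hε1
      refine le_of_eq_of_le (by ring) (qR i q hq (lv S a * z ^ C0 * y) (le_trans ?_ h1))
      exact Nat.mul_le_mul_right _ (Nat.mul_le_mul_right _ (Nat.mul_le_mul_left _
        (Nat.pow_le_pow_left (hP i' z hz).2.2.2 _))))
    f (fun i a => F (R i) (lv (insert (Sum.inr true) (Sa l)) a))
    (fun i k a => F' (R i) (lv ((insert (Sum.inr true) (Sa l)).erase k) a)) hf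
    (fun i => ⟨fun a _ => (hFF _ _ (Rpos i)).1, fun a a' h => congrArg (F (R i)) (dep_lv _ a a' h)⟩)
    (fun i k _ => ⟨fun a _ => (hFF _ _ (Rpos i)).2,
      fun a a' h => congrArg (F' (R i)) (dep_lv _ a a' h)⟩)
  refine ⟨_, memG a fun k _ => mem_supp.1 ha k, u, hu, le_trans ?_ (h.trans_eq (by rw [lv_Sa]))⟩
  have lam1 : ∑ i, rs (P i) / L = 1 := by rw [← sum_div, div_self L0.ne']
  have a1 : v ≤ ∑ i, rs (P i) / L * Ew (update g (Sum.inr true) (γ i)) fun a =>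
      pot (wt B n) (lv (insert (Sum.inr true) (Sa l)) a) f
        (F (R i) (lv (insert (Sum.inr true) (Sa l)) a)) := by
    calc v = ∑ i, rs (P i) / L * v := by rw [← sum_mul, lam1, one_mul]
      _ ≤ _ := sum_le_sum fun i _ => mul_le_mul_of_nonneg_left ?_ (div_nonneg (posP i).le L0.le)
    rw [← Ew_const (update g (Sum.inr true) (γ i)) v]
    refine Ew_le _ fun a ha => ?_
    obtain ⟨h1, h2⟩ := memU i a ha
    rw [lv_top]
    exact hv i _ h1 _ h2
  have a2 : ∑ i, rs (P i) / L * ∑ k ∈ Sa l, Ew (update g (Sum.inr true) (γ i)) (fun a =>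
      br (wt B n) (lv (insert (Sum.inr true) (Sa l)) a)
        (F (R i) (lv (insert (Sum.inr true) (Sa l)) a) -
          F' (R i) (lv ((insert (Sum.inr true) (Sa l)).erase k) a))
        (F (R i) (lv (insert (Sum.inr true) (Sa l)) a) -
          F' (R i) (lv ((insert (Sum.inr true) (Sa l)).erase k) a))) ≤ l * max e 0 := by
    calc _ ≤ ∑ i, rs (P i) / L * (l * max e 0) :=
          sum_le_sum fun i _ => mul_le_mul_of_nonneg_left ?_ (div_nonneg (posP i).le L0.le)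
      _ = _ := by rw [← sum_mul, lam1, one_mul]
    refine (sum_le_card_nsmul _ _ (max e 0) fun k hk => ?_).trans (by rw [card_Sa, nsmul_eq_mul])
    obtain ⟨j, rfl⟩ := mem_Sa.1 hk
    refine (Ew_le _ (h' := fun a => δ (a (Sum.inl j))) fun a ha => ?_).trans ?_
    · obtain ⟨h1, h2⟩ := memU i a ha
      have e1 : lv (insert (Sum.inr true) (Sa l)) a =
          lv ((insert (Sum.inr true) (Sa l)).erase (Sum.inl j)) a * a (Sum.inl j) := by
        rw [← lv_insert (notMem_erase _ _), insert_erase (mem_insert_of_mem hk)]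
      have := hbr i _ h1 _ h2 j _ ((lv_top a).symm.trans e1)
      rwa [← lv_top] at this
    · rw [Ew_resample _ (Sum.inl j)]
      simp only [update_self]
      rw [Ew_const, up]
      exact (hδ j).trans (le_max_left _ _)
  have a3 : (10000 : ℝ) ^ (Fintype.card (Fin l ⊕ Bool) + 1) * (1 / (Q : ℝ) ^ 2) ≤ 1 / Q := by
    have h1 : 10000 ^ (Fintype.card (Fin l ⊕ Bool) + 1) ≤ Q := by
      refine le_trans ?_ hQ16
      rw [show (10 : ℕ) ^ 16 = 10000 ^ 4 by norm_num, ← pow_mul]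
      refine Nat.pow_le_pow_right (by norm_num) ?_
      simp only [Fintype.card_sum, Fintype.card_fin, Fintype.card_bool]
      omega
    have h2 : (10000 : ℝ) ^ (Fintype.card (Fin l ⊕ Bool) + 1) ≤ Q := by exact_mod_cast h1
    calc _ ≤ (Q : ℝ) * (1 / (Q : ℝ) ^ 2) := mul_le_mul_of_nonneg_right h2 (by positivity)
      _ = _ := by field_simp
  have a4 : 2 * (l * max e 0) / (((l / 8 : ℕ) : ℝ) + 1) ≤ 16 * max e 0 := by
    rw [div_le_iff₀ (by positivity)]
    have h1 : (l : ℝ) ≤ 8 * (((l / 8 : ℕ) : ℝ) + 1) := by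
      exact_mod_cast (by omega : l ≤ 8 * (l / 8 + 1))
    nlinarith [le_max_right e 0]
  have a5 := (div_le_div_of_nonneg_right (mul_le_mul_of_nonneg_left a2 (by norm_num : (0 : ℝ) ≤ 2))
    (by positivity : (0 : ℝ) ≤ ((l / 8 : ℕ) : ℝ) + 1)).trans a4
  have a6 := div_le_div_of_nonneg_right (add_le_add (add_le_add a5
    (le_of_eq (mul_one_div 12 L))) a3) hs.le
  linarith

end Pool.Agent.P.MP_a14ce1_nt.Pl
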