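import Pool.Agent.P.MP_a14ce1_nt.Nil.Pl.St

/-!
Extension on one window of the level c, for the convex hull of the atoms.
-/

open Finset

namespace Pool.Agent.P.MP_a14ce1_nt.Pl

open Ax (At PW hull sv pc)

namespace ExtI

/-- the real part of the pairing with b -/
noncomputable def lin (d s t : ℕ) (b : ℕ → ℂ) : (ℕ → ℂ) →ₗ[ℝ] ℝ where
  toFun a := (sv d s t (pc a b)).re
  map_add' a a' := by
    simp only [sv, pc, Pi.add_apply, add_mul, sum_add_distrib, mul_add, Complex.add_re]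
  map_smul' r a := by
    simp only [sv, pc, Pi.smul_apply, Complex.real_smul, mul_assoc, ← mul_sum, RingHom.id_apply,
      smul_eq_mul]
    rw [mul_left_comm, Complex.re_ofReal_mul]

theorem lin_def (d s t : ℕ) (a b : ℕ → ℂ) : (sv d s t (pc a b)).re = lin d s t b a := rfl

theorem lin_symm (d s t : ℕ) (a b : ℕ → ℂ) : lin d s t b a = lin d s t a b := by
  rw [← lin_def, ← lin_def, ← Complex.conj_re]
  simp only [sv, pc, map_mul, map_sum, map_natCast, Complex.conj_conj, mul_comm]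

theorem up_le {c : ℕ} (hc : 0 < c) (s n : ℕ) : (s + c - 1) / c ≤ n ↔ s ≤ c * n := by
  rw [Nat.div_le_iff_le_mul_add_pred hc]
  omega

theorem sv_scale {c : ℕ} (hc : 0 < c) (d s e : ℕ) (φ : ℕ → ℂ) : sv (c * d) s e φ =
    c * sv d ((s + c - 1) / c) ((e + c - 1) / c) fun n => φ (c * n) := by
  rw [sv, sv, Nat.cast_mul, mul_assoc]
  congr 2
  have h : ∀ n, n ∈ (Ico ((s + c - 1) / c) ((e + c - 1) / c)).filter (fun n => d ∣ n) ↔
      c * n ∈ (Ico s e).filter (fun n => c * d ∣ n) := fun n => by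
    rw [mem_filter, mem_filter, mem_Ico, mem_Ico, up_le hc, ← not_le, up_le hc, not_le,
      Nat.mul_dvd_mul_iff_left hc]
  symm
  refine sum_nbij (fun n => c * n) (fun n hn => (h n).1 hn) (mul_right_injective₀ hc.ne').injOn
    (fun m hm => ?_) fun _ _ => rfl
  obtain ⟨n, rfl⟩ := (dvd_mul_right c d).trans (mem_filter.1 hm).2
  exact ⟨n, (h n).2 hm, rfl⟩

theorem lin_scale {c : ℕ} (hc : 0 < c) (d s e : ℕ) (a b : ℕ → ℂ) : lin (c * d) s e b a =
    c * lin d ((s + c - 1) / c) ((e + c - 1) / c) (fun n => b (c * n)) fun n => a (c * n) := by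
  rw [← lin_def, sv_scale hc, ← Complex.ofReal_natCast, Complex.re_ofReal_mul]
  rfl

theorem pow_le {Q : ℝ} (hQ : 2 ≤ Q) (C : ℕ) : 2 * (2 * Q) ^ C ≤ Q ^ (2 * C + 1) := by
  rw [pow_succ', pow_mul, sq]
  gcongr

theorem pw {Q : ℝ} (hQ : 2 ≤ Q) {C : ℕ} {P : Finset ℕ} {w : ℕ → ℝ} (h : PW Q (2 * C + 1) P w) :
    PW (2 * Q) C P w := by
  refine ⟨h.pr, h.nn, h.sum, fun p hp => (h.le p hp).trans (by linarith), fun p hp => ?_,
    fun p hp => (h.hi p hp).trans (by linarith)⟩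
  have h1 := pow_le hQ C
  have h2 : 0 ≤ (2 * Q) ^ C := by positivity
  linarith [h.lo p hp]

theorem len {c : ℕ} (hc : 0 < c) (s R : ℕ) :
    (R : ℝ) - c ≤ c * ((((s + R + c - 1) / c : ℕ) : ℝ) - ((s + c - 1) / c : ℕ)) ∧
      c * ((((s + R + c - 1) / c : ℕ) : ℝ) - ((s + c - 1) / c : ℕ)) ≤ R + c := by
  have h1 : s + R ≤ c * ((s + R + c - 1) / c) := (up_le hc _ _).1 le_rfl
  have h2 : s ≤ c * ((s + c - 1) / c) := (up_le hc _ _).1 le_rfl
  have h3 : c * ((s + R + c - 1) / c) ≤ s + R + c := (Nat.mul_div_le _ c).trans (by omega)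
  have h4 : c * ((s + c - 1) / c) ≤ s + c := (Nat.mul_div_le _ c).trans (by omega)
  generalize (s + R + c - 1) / c = x at *
  generalize (s + c - 1) / c = y at *
  rify at h1 h2 h3 h4
  rw [mul_sub]
  constructor <;> linarith

end ExtI

open ExtI

theorem extI : S_ExtI := by
  rintro A hA ⟨C, hC⟩
  refine ⟨2 * C + 1, fun Q hQ γ γ' s R c h1 h2 hd hc hR χ ψ hχ hψ => ?_⟩
  choose ι _ w z hw0 hw1 hz hψ using fun v => mem_convexHull_iff_exists_fintype.1 (hψ v)
  have k1 := fun p => ((∑ v ∈ γ'.s, γ'.w v • lin (c * (p * v)) s (s + R) (ψ v)).convexOn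
    convex_univ).exists_ge_of_mem_convexHull (Set.subset_univ _) (hχ p)
  choose χ' hχ' hle using k1
  have hc' : (0 : ℝ) < c := by exact_mod_cast hc
  obtain ⟨l1, l2⟩ := len hc s R
  have k2 : ∀ p ∈ γ.s, ∀ r ∈ γ'.s, 2 * (c * (p * (r : ℝ) ^ C * (2 * Q) ^ C)) ≤ R ∧
      (1 : ℝ) ≤ p * (r : ℝ) ^ C * (2 * Q) ^ C := fun p hp r hr => by
    have a1 : (1 : ℝ) ≤ p := by exact_mod_cast (h1.pr p hp).one_le
    have a2 : (1 : ℝ) ≤ r := by exact_mod_cast (h2.pr r hr).one_le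
    refine ⟨le_trans ?_ (hR p hp r hr), one_le_mul_of_one_le_of_one_le
      (one_le_mul_of_one_le_of_one_le a1 (one_le_pow₀ a2)) (one_le_pow₀ (by linarith))⟩
    push_cast
    calc 2 * (c * (p * (r : ℝ) ^ C * (2 * Q) ^ C)) = c * p * (r : ℝ) ^ C * (2 * (2 * Q) ^ C) := by ring
      _ ≤ _ := by
        gcongr
        · omega
        · exact pow_le hQ C
  have k3 : (c : ℝ) ≤ R := by
    obtain ⟨p, hp⟩ := nonempty_of_sum_ne_zero (γ.one ▸ one_ne_zero : ∑ p ∈ γ.s, γ.w p ≠ 0)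
    obtain ⟨r, hr⟩ := nonempty_of_sum_ne_zero (γ'.one ▸ one_ne_zero : ∑ p ∈ γ'.s, γ'.w p ≠ 0)
    obtain ⟨a1, a2⟩ := k2 p hp r hr
    nlinarith
  obtain ⟨u, hu, h⟩ := hC (2 * Q) (by linarith) γ.s γ'.s γ.w γ'.w ((s + c - 1) / c)
    ((s + R + c - 1) / c) (Σ v, ι v) (γ'.s.sigma fun _ => univ) (fun τ => τ.1)
    (fun τ => γ'.w τ.1 * w τ.1 τ.2) (fun p n => χ' p (c * n)) (fun τ n => z τ.1 τ.2 (c * n))
    (pw hQ h1) (pw hQ h2) hd
    (fun τ hτ => ⟨(mem_sigma.1 hτ).1, mul_nonneg (γ'.nn _) (hw0 _ _), hA.dil _ (hz _ _) c hc⟩)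
    (fun r hr => by
      rw [sum_filter, sum_sigma, sum_eq_single_of_mem r hr fun v _ hv => by simp [hv]]
      simp [← mul_sum, hw1])
    (fun p _ => hA.dil _ (hχ' p) c hc) fun p hp r hr => by
      obtain ⟨a1, a2⟩ := k2 p hp r hr
      refine le_of_mul_le_mul_left ?_ hc'
      nlinarith
  obtain ⟨b, hb, hbu⟩ := hA.und u hu c hc
  refine ⟨b, subset_convexHull ℝ A hb, ?_⟩
  simp only [Complex.re_sum, Complex.re_ofReal_mul, lin_def, sum_sigma] at h
  have k4 : ∀ (v d : ℕ) (a : ℕ → ℂ), lin (c * d) s (s + R) (ψ v) a = c * ∑ i, w v i *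
      lin d ((s + c - 1) / c) ((s + R + c - 1) / c) (fun n => z v i (c * n)) fun n => a (c * n) :=
    fun v d a => by
      rw [lin_symm, ← hψ v, map_sum, mul_sum]
      refine sum_congr rfl fun i _ => ?_
      rw [map_smul, smul_eq_mul, lin_symm, lin_scale hc, mul_left_comm]
  have k5 : c * ((((s + R + c - 1) / c : ℕ) : ℝ) - ((s + c - 1) / c : ℕ)) / (2 * Q) ≤ R / Q := by
    rw [← mul_div_mul_left (R : ℝ) Q two_ne_zero]
    exact div_le_div_of_nonneg_right (by linarith) (by linarith)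
  have k6 := mul_le_mul_of_nonneg_left h hc'.le
  rw [mul_add, ← mul_div_assoc] at k6
  refine le_trans ?_ (k6.trans (add_le_add (le_of_eq ?_) k5))
  · simp only [Nil.ES.Pr.E, lin_def, mul_sum]
    rw [sum_comm]
    refine sum_le_sum fun p _ => ?_
    have := mul_le_mul_of_nonneg_left (hle p) (γ.nn p)
    simp only [LinearMap.sum_apply, LinearMap.smul_apply, smul_eq_mul] at this
    refine le_trans (le_of_eq ?_) (this.trans (le_of_eq ?_))
    · rw [mul_sum]
      exact sum_congr rfl fun v _ => by rw [lin_symm, mul_assoc c, mul_left_comm]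
    · simp only [k4, mul_sum]
      exact sum_congr rfl fun v _ => sum_congr rfl fun i _ => by ring
  · rw [Nil.ES.Pr.E, mul_sum]
    refine sum_congr rfl fun v _ => ?_
    rw [lin_def, lin_symm, k4]
    simp only [hbu, mul_sum]
    exact sum_congr rfl fun i _ => by ring

end Pool.Agent.P.MP_a14ce1_nt.Pl
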