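import Pool.Agent.P.MP_a14ce1_nt.Nil.Pl.St
import Pool.Agent.P.MP_a14ce1_nt.IV.WinAx

/-! Fair sampling on one window, and fair sampling and extension for the piecewise class. -/

open Finset

namespace Pool.Agent.P.MP_a14ce1_nt.Pl

open Nil.ES (Wt Pr br mass pot FsN ExtN FsC)
open IV (Hull Gr App Up Ep)
open Ax (At PW hull sv pc)

namespace FsI

/-- rescaling of a window of the level c -/
theorem sv_scale {c : ℕ} (hc : 0 < c) (d s t : ℕ) (φ : ℕ → ℂ) :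
    sv (c * d) s t φ = c * sv d ⌈(s : ℝ) / c⌉₊ ⌈(t : ℝ) / c⌉₊ fun n => φ (c * n) := by
  have hc' : (0 : ℝ) < c := by exact_mod_cast hc
  have hm : ∀ n : ℕ, n ∈ Ico ⌈(s : ℝ) / c⌉₊ ⌈(t : ℝ) / c⌉₊ ↔ c * n ∈ Ico s t := fun n => by
    rw [mem_Ico, mem_Ico, Nat.ceil_le, Nat.lt_ceil, div_le_iff₀' hc', lt_div_iff₀' hc']
    norm_cast
  have e : ∑ n ∈ (Ico ⌈(s : ℝ) / c⌉₊ ⌈(t : ℝ) / c⌉₊).filter (fun n => d ∣ n), φ (c * n) =
      ∑ N ∈ (Ico s t).filter (fun N => c * d ∣ N), φ N := by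
    refine sum_bij (fun n _ => c * n) (fun n hn => ?_)
      (fun _ _ _ _ h => Nat.eq_of_mul_eq_mul_left hc h) (fun N hN => ?_) fun _ _ => rfl
    · rw [mem_filter] at hn ⊢
      exact ⟨(hm n).mp hn.1, Nat.mul_dvd_mul_left c hn.2⟩
    · obtain ⟨h1, m, rfl⟩ := mem_filter.mp hN
      rw [mul_assoc] at h1
      exact ⟨d * m, mem_filter.mpr ⟨(hm _).mpr h1, dvd_mul_right _ _⟩, (mul_assoc _ _ _).symm⟩
  rw [sv, sv, e]
  push_cast
  ring

theorem win_len {c : ℕ} (hc : 0 < c) (s R : ℕ) :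
    (R : ℝ) / c - 1 ≤ (⌈((s + R : ℕ) : ℝ) / c⌉₊ : ℝ) - ⌈(s : ℝ) / c⌉₊ ∧
      (⌈((s + R : ℕ) : ℝ) / c⌉₊ : ℝ) - ⌈(s : ℝ) / c⌉₊ ≤ (R : ℝ) / c + 1 := by
  have h1 := Nat.le_ceil (((s + R : ℕ) : ℝ) / c)
  have h2 := Nat.ceil_lt_add_one (show 0 ≤ (s : ℝ) / c by positivity)
  have h3 := Nat.le_ceil ((s : ℝ) / c)
  have h4 := Nat.ceil_lt_add_one (show 0 ≤ ((s + R : ℕ) : ℝ) / c by positivity)
  have h5 : ((s + R : ℕ) : ℝ) / c = s / c + R / c := by push_cast; ring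
  constructor <;> linarith

theorem pw_mono {Q : ℝ} {C C' : ℕ} {P : Finset ℕ} {w : ℕ → ℝ} (hQ : 2 ≤ Q) (hC : C ≤ C')
    (h : PW Q C' P w) : PW Q C P w :=
  ⟨h.pr, h.nn, h.sum, h.le,
    fun p hp => (pow_le_pow_right₀ (by linarith) hC).trans (h.lo p hp), h.hi⟩

theorem sv_congr {c s t : ℕ} {φ ψ : ℕ → ℂ} (h : ∀ n ∈ Ico s t, φ n = ψ n) :
    sv c s t φ = sv c s t ψ := by
  rw [sv, sv, sum_congr rfl fun n hn => h n (mem_filter.1 hn).1]

theorem mem_win {R j n : ℕ} : n ∈ Ico (j * R) (j * R + R) ↔ n ∈ IV.cell R j := by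
  rw [IV.mem_cell, mem_Ico, show j * R + R = (j + 1) * R by ring]
  norm_cast

theorem E_sum (γ : Pr) (J : Finset ℕ) (ω : ℕ → ℝ) (h : ℕ → ℕ → ℝ) :
    γ.E (fun p => ∑ j ∈ J, ω j * h j p) = ∑ j ∈ J, ω j * γ.E (h j) := by
  simp only [Pr.E, mul_sum]
  rw [sum_comm]
  exact sum_congr rfl fun _ _ => sum_congr rfl fun _ _ => by ring

end FsI

open FsI

theorem fsI : S_FsI := by
  intro A hA ⟨C, h⟩
  refine ⟨2 * C + 1, fun Q hQ γ s R c hP hc hR u hu v hv => ?_⟩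
  have hc' : (0 : ℝ) < c := by exact_mod_cast hc
  obtain ⟨w1, w2⟩ := win_len hc s R
  have h1 : ∀ p ∈ γ.s, 2 ≤ (R : ℝ) / c ∧
      (p : ℝ) * (Q ^ 2) ^ C ≤ (⌈((s + R : ℕ) : ℝ) / c⌉₊ : ℝ) - ⌈(s : ℝ) / c⌉₊ := by
    intro p hp
    have h2 : (1 : ℝ) ≤ p := by exact_mod_cast (hP.pr p hp).pos
    have h3 : 1 ≤ p * (Q ^ 2) ^ C :=
      one_le_mul_of_one_le_of_one_le h2 (one_le_pow₀ (by nlinarith))
    have h4 : p * (Q ^ 2) ^ C * Q ≤ (R : ℝ) / c := by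
      rw [le_div_iff₀' hc']
      refine le_trans (le_of_eq ?_) (hR p hp)
      push_cast; ring
    constructor <;> nlinarith
  obtain ⟨p0, hp0⟩ := IV.Pr.ne γ
  have h2 := (h1 p0 hp0).1
  have e : ∀ (s t : ℕ) (g : ℕ → ℂ), ∑ p ∈ γ.s, (γ.w p : ℂ) * sv p s t g - sv 1 s t g =
      ∑ n ∈ Ico s t, (∑ p ∈ γ.s, (γ.w p : ℂ) * (if p ∣ n then (p : ℂ) else 0) - 1) * g n := by
    intro s t g
    simp only [IV.sv_eq, mul_sum, sub_mul, sum_sub_distrib, sum_mul, one_dvd, if_true,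
      Nat.cast_one, mul_assoc]
    rw [sum_comm]
  have h3 := h (Q ^ 2) (by nlinarith) γ.s γ.w _ _ (IV.pw_sq hQ hP) fun p hp => (h1 p hp).2
  simp only [e] at h3
  have h4 := Nil.EL.hull_pc _ _ h3 _ (Nil.EL.hull_dil hA hu hc) _ (Nil.EL.hull_dil hA hv hc)
  rw [← e] at h4
  have h5 := sv_scale hc 1 s (s + R) (pc u v)
  rw [mul_one] at h5
  have h6 : c * (((⌈((s + R : ℕ) : ℝ) / c⌉₊ : ℝ) - ⌈(s : ℝ) / c⌉₊) / Q ^ 2) ≤ R / Q := by
    have hQ0 : 0 < Q := by linarith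
    calc _ ≤ c * (Q * (R / c) / Q ^ 2) := by gcongr; nlinarith
      _ = _ := by field_simp
  refine le_trans (le_of_eq ?_) ((mul_le_mul_of_nonneg_left
    ((Complex.abs_re_le_norm _).trans h4) hc'.le).trans h6)
  rw [← abs_of_pos hc', ← abs_mul, abs_of_pos hc', h5]
  simp only [sv_scale hc, ← Complex.ofReal_natCast, Complex.re_ofReal_mul, Pr.E_mul]
  simp only [Pr.E, Complex.sub_re, Complex.re_sum, Complex.re_ofReal_mul, mul_sub]
  rfl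

theorem fsExt (hC : S_Cells) (h1 : S_FsI) (h2 : S_ExtI) : S_FsExt := by
  intro A hA
  obtain ⟨C1, h1⟩ := h1 A hA.atm hA.fs
  obtain ⟨C2, h2⟩ := h2 A hA.atm hA.ext
  refine ⟨C1 + C2 + 1, by omega, fun Q hQ γ B n R c hP hB hRB hn hc => ?_⟩
  obtain ⟨J, ω, hω, hs, hbr⟩ := hC B n R hB hRB hn
  simp only [add_one_mul] at hbr
  have hR : 0 < R := Nat.pos_of_dvd_of_pos hRB hB
  have hQ1 : 1 ≤ Q := by linarith
  have hs' : ∑ j ∈ J, ω j * (R / Q) = 1 / Q := by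
    simp only [← mul_div_assoc, ← sum_div, hs]
  refine ⟨fun hR φ hφ ψ hψ => ?_, fun γ' hP' hd hR' χ ψ hχ hψ => ?_⟩
  · simp only [hbr]
    rw [E_sum, ← sum_sub_distrib, ← hs']
    refine (abs_sum_le_sum_abs _ _).trans (sum_le_sum fun j _ => ?_)
    rw [← mul_sub, abs_mul, abs_of_nonneg (hω j)]
    refine mul_le_mul_of_nonneg_left ?_ (hω j)
    obtain ⟨u, hu, hu'⟩ := hφ j
    obtain ⟨v, hv, hv'⟩ := hψ j
    have e : ∀ d, sv d (j * R) (j * R + R) (pc φ ψ) = sv d (j * R) (j * R + R) (pc u v) :=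
      fun d => sv_congr fun n hn => by rw [pc, pc, hu' n (mem_win.1 hn), hv' n (mem_win.1 hn)]
    simp only [e]
    exact h1 Q hQ γ (j * R) R c (pw_mono hQ (by omega) hP) hc (fun p hp => le_trans
      (mul_le_mul_of_nonneg_left (pow_le_pow_right₀ hQ1 (by omega)) (Nat.cast_nonneg _))
      (hR p hp)) u hu v hv
  · choose χ' hχ' eχ using hχ
    choose ψ' hψ' eψ using hψ
    have h3 := fun j => h2 Q hQ γ γ' (j * R) R c (pw_mono hQ (by omega) hP)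
      (pw_mono hQ (by omega) hP') hd hc (fun p hp v hv => le_trans (mul_le_mul
        (Nat.cast_le.2 (Nat.mul_le_mul_left _
          (Nat.pow_le_pow_right (hP'.pr v hv).pos (by omega))))
        (pow_le_pow_right₀ hQ1 (by omega)) (by positivity) (Nat.cast_nonneg _)) (hR' p hp v hv))
      (fun p => χ' p j) (fun v => ψ' v j) (fun p => hχ' p j) fun v => hψ' v j
    choose U hU hU' using h3
    have eU : ∀ j, ∀ n ∈ IV.cell R j, U (n / R) n = U j n := fun j n hn => by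
      rw [IV.mem_cell_floor (by exact_mod_cast hR), Nat.floor_div_eq_div] at hn
      rw [hn]
    refine ⟨fun n => U (n / R) n, fun j => ⟨U j, hU j, eU j⟩, ?_⟩
    simp only [hbr, E_sum]
    rw [← hs', ← sum_add_distrib]
    refine sum_le_sum fun j _ => ?_
    rw [← mul_add]
    refine mul_le_mul_of_nonneg_left ?_ (hω j)
    have e1 : ∀ d v p, sv d (j * R) (j * R + R) (pc (ψ v) (χ p)) =
        sv d (j * R) (j * R + R) (pc (ψ' v j) (χ' p j)) := fun d v p =>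
      sv_congr fun n hn => by rw [pc, pc, eχ p j n (mem_win.1 hn), eψ v j n (mem_win.1 hn)]
    have e2 : ∀ d v, sv d (j * R) (j * R + R) (pc (ψ v) fun n => U (n / R) n) =
        sv d (j * R) (j * R + R) (pc (ψ' v j) (U j)) := fun d v =>
      sv_congr fun n hn => by rw [pc, pc, eU j n (mem_win.1 hn), eψ v j n (mem_win.1 hn)]
    simp only [e1, e2]
    exact hU' j

end Pool.Agent.P.MP_a14ce1_nt.Pl
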