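import Pool.Agent.P.MP_a14ce1_nt.Nil.Pl.St

/-!
The families on all levels, and the way back to the logarithmic distance.
-/

open Finset
open scoped ComplexConjugate

namespace Pool.Agent.P.MP_a14ce1_nt.Pl

open Nil.ES (Wt br pot br_eq)
open IV (Hull Gr App Up gn gn_eq dst)
open Pool.Agent.P.MP_e30989_nt.W (UCM)

namespace Setup

theorem re_self (u : ℂ) : (u * conj u).re = ‖u‖ ^ 2 := by
  rw [Complex.mul_conj, Complex.ofReal_re, Complex.normSq_eq_norm_sq]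

theorem pot_eq (μ : Wt ℕ) (c : ℕ) (f u : ℕ → ℂ) :
    pot μ c f u = c * ∑ N ∈ μ.s.filter (fun N => c ∣ N), μ.w N * gn (f N) (u N) := by
  rw [pot, br_eq, br_eq, mul_left_comm, ← mul_sub, mul_sum _ _ (2 : ℝ), ← sum_sub_distrib]
  congr 1
  refine sum_congr rfl fun N _ => ?_
  rw [gn, re_self]; ring

theorem gn_rot {z : ℂ} (hz : ‖z‖ = 1) (a b : ℂ) : gn (z * a) (z * b) = gn a b := by
  rw [gn_eq, gn_eq, ← mul_sub, norm_mul, norm_mul, hz, one_mul, one_mul]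

theorem sq_le_four {a b : ℂ} (ha : ‖a‖ ≤ 1) (hb : ‖b‖ ≤ 1) : ‖a - b‖ ^ 2 ≤ 4 := by
  have h := norm_sub_le a b
  nlinarith [norm_nonneg (a - b)]

theorem mul_conj_one {z : ℂ} (hz : ‖z‖ = 1) : z * conj z = 1 := by
  rw [Complex.mul_conj, Complex.normSq_eq_norm_sq, hz]; simp

theorem mem_lev {B n c N : ℕ} (hc : 0 < c) (hB : c ≤ B)
    (h : N ∈ (wt B n).s.filter (fun N => c ∣ N)) : ∃ m, m ≠ 0 ∧ N = c * m ∧ N / c = m := by
  rw [mem_filter] at h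
  obtain ⟨h1, m, rfl⟩ := h
  have h2 : B ≤ c * m := (mem_Ico.1 h1).1
  refine ⟨m, ?_, rfl, Nat.mul_div_cancel_left m hc⟩
  rintro rfl
  omega

theorem pot_trans (hT : S_Trans) {f : ℕ → ℂ} (hf : UCM f) {B n c X : ℕ} (hc : 0 < c) (hB : c ≤ B)
    (hn : 2 ≤ n) (hX : n * B ≤ c * X) {u Φ : ℕ → ℂ} (hΦ : ∀ m, ‖Φ m‖ ≤ 1)
    (hu : ∀ m, u (c * m) = f c * Φ m) :
    |hs n * pot (wt B n) c f u - (∑ m ∈ Icc 1 X, 1 / (m : ℝ) - dst X f Φ)| ≤
      4 * (6 + Real.log ((X : ℝ) / n)) := by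
  have h := hT B n c X (fun m => gn (f m) (Φ m)) 4 hc hB hn hX fun m => by
    have h1 := sq_le_four (hf.1.bd m) (hΦ m)
    have h2 := pow_le_one₀ (n := 2) (norm_nonneg _) (hf.1.bd m)
    rw [gn_eq, abs_le]
    constructor <;> nlinarith [sq_nonneg ‖f m‖, sq_nonneg ‖f m - Φ m‖]
  have e1 : ∑ N ∈ (wt B n).s.filter (fun N => c ∣ N), (wt B n).w N * gn (f N) (u N) =
      ∑ N ∈ (wt B n).s.filter (fun N => c ∣ N), (wt B n).w N * gn (f (N / c)) (Φ (N / c)) := by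
    refine sum_congr rfl fun N hN => ?_
    obtain ⟨m, hm, e, e'⟩ := mem_lev hc hB hN
    rw [e', e, hu, hf.1.mul _ _ hc.ne' hm, gn_rot (hf.2 c hc.ne')]
  have e2 : ∑ m ∈ Icc 1 X, gn (f m) (Φ m) / m = ∑ m ∈ Icc 1 X, 1 / (m : ℝ) - dst X f Φ := by
    rw [dst, ← sum_sub_distrib]
    refine sum_congr rfl fun m hm => ?_
    rw [gn_eq, hf.2 m (by have := (mem_Icc.1 hm).1; omega), one_pow, sub_div]
  rw [pot_eq, e1, ← e2]
  exact h

theorem lift (hR : IV.S_Regrid) (hB : S_Basic) {XX : Set (ℕ → ℂ)} (hX : Hull XX) {f : ℕ → ℂ}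
    (hf : UCM f) {ρ t : ℝ} {Φ : ℕ → ℂ} (hΦ : Gr XX ρ Φ) (ht : 0 < t) (ht2 : t ≤ 1 / 2) {R : ℕ}
    (hR0 : 0 < R) (X c : ℕ) : ∃ F ∈ GX XX R, 0 < c → c ≤ R → (R : ℝ) ≤ t * c * ρ →
      ∃ Φ' : ℕ → ℂ, (∀ m, F (c * m) = f c * Φ' m) ∧ (∀ m, ‖Φ' m‖ ≤ 1) ∧
        dst X Φ Φ' ≤ 8 * t * (1 + Real.log X) ∧
        dst X f Φ' ≤ dst X f Φ + 8 * t * (1 + Real.log X) := by
  by_cases h : 0 < c ∧ c ≤ R ∧ (R : ℝ) ≤ t * c * ρ
  · obtain ⟨h1, h2, h3⟩ := h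
    have hc : (0 : ℝ) < c := by exact_mod_cast h1
    have hR' : (0 : ℝ) < R := by exact_mod_cast hR0
    obtain ⟨Φ', a1, a2, a3⟩ := hR XX hX ρ (R / c) t Φ X
      ((one_le_div hc).2 (by exact_mod_cast h2)) ((div_le_iff₀ hc).2 (by linarith)) ht ht2 hΦ
    have a4 : Gr XX (R / c) fun m => f c * Φ' m := fun j => by
      obtain ⟨u, hu, e⟩ := a1 j
      exact ⟨_, hX.sc u hu (f c) (hf.1.bd c), fun m hm => congrArg (f c * ·) (e m hm)⟩
    obtain ⟨F, b1, b2⟩ := hB.2.2.1 XX hX R c _ hR' h1 a4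
    exact ⟨F, b1, fun _ _ _ => ⟨Φ', b2, a1.bd hX (div_pos hR' hc), a2, a3 f hf.1.bd⟩⟩
  · exact ⟨0, IV.gr_zero hX _, fun h1 h2 h3 => absurd ⟨h1, h2, h3⟩ h⟩

theorem sum_dil {g : ℕ → ℝ} (hg : ∀ n, 0 ≤ g n) {p Pm : ℕ} (hp : 0 < p) (hP : p ≤ Pm) (X : ℕ) :
    ∑ m ∈ Icc 1 X, g (p * m) / m ≤ Pm * ∑ n ∈ Icc 1 (Pm * X), g n / n := by
  have hp' : (0 : ℝ) < p := by exact_mod_cast hp
  have h1 : ∑ m ∈ Icc 1 X, g (p * m) / m = p * ∑ n ∈ (Icc 1 X).image (fun m => p * m), g n / n := by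
    rw [sum_image fun a _ b _ h => Nat.eq_of_mul_eq_mul_left hp h, mul_sum]
    refine sum_congr rfl fun m _ => ?_
    push_cast
    rw [← mul_div_assoc, mul_div_mul_left _ _ hp'.ne']
  have h2 : ∑ n ∈ (Icc 1 X).image (fun m => p * m), g n / n ≤ ∑ n ∈ Icc 1 (Pm * X), g n / n := by
    refine sum_le_sum_of_subset_of_nonneg (fun n hn => ?_) fun n _ _ =>
      div_nonneg (hg n) (Nat.cast_nonneg n)
    obtain ⟨m, hm, rfl⟩ := mem_image.1 hn
    rw [mem_Icc] at hm ⊢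
    exact ⟨Nat.mul_pos hp hm.1, Nat.mul_le_mul hP hm.2⟩
  rw [h1]
  exact mul_le_mul (by exact_mod_cast hP) h2
    (sum_nonneg fun n _ => div_nonneg (hg n) (Nat.cast_nonneg n)) (Nat.cast_nonneg _)

theorem three (a a' b b' z : ℂ) (hz : ‖z‖ ≤ 1) :
    ‖a' - conj z * b'‖ ^ 2 ≤ 3 * (‖a - a'‖ ^ 2 + ‖a - conj z * b‖ ^ 2 + ‖b - b'‖ ^ 2) := by
  have e : a' - conj z * b' = -(a - a') + (a - conj z * b) + conj z * (b - b') := by ring
  have h1 : ‖conj z * (b - b')‖ ≤ ‖b - b'‖ := by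
    rw [norm_mul, Complex.norm_conj]
    exact mul_le_of_le_one_left (norm_nonneg _) hz
  have h2 : ‖a' - conj z * b'‖ ≤ ‖a - a'‖ + ‖a - conj z * b‖ + ‖b - b'‖ := by
    rw [e]
    refine norm_add₃_le.trans ?_
    rw [norm_neg]
    linarith
  refine (pow_le_pow_left₀ (norm_nonneg _) h2 2).trans ?_
  nlinarith [sq_nonneg (‖a - a'‖ - ‖a - conj z * b‖), sq_nonneg (‖a - a'‖ - ‖b - b'‖),
    sq_nonneg (‖a - conj z * b‖ - ‖b - b'‖)]

theorem log_div_nonneg {n X : ℕ} (hn : 2 ≤ n) (hX : n ≤ X) : 0 ≤ Real.log ((X : ℝ) / n) :=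
  Real.log_nonneg ((one_le_div (by exact_mod_cast (show 0 < n by omega))).2 (by exact_mod_cast hX))

end Setup

open Setup

theorem setup (hR : IV.S_Regrid) (hB : S_Basic) (hT : S_Trans) : S_Setup := by
  refine ⟨48, by norm_num, fun XX hX f hf X B n R Pm ρ t Ψ Ψ1 hΨ hΨ1 ht ht2 hPm hR0 hn hnX => ?_⟩
  have hP : (1 : ℝ) ≤ Pm := by exact_mod_cast hPm
  have hP0 : (0 : ℝ) < Pm := by linarith
  choose F F1 F2 using lift hR hB hX hf hΨ1 ht ht2 hR0 X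
  choose G G1 G2 using lift hR hB hX hf hΨ (div_pos ht hP0)
    ((div_le_self ht.le hP).trans ht2) hR0 (Pm * X)
  refine ⟨F, G, fun c => ⟨F1 c, G1 c⟩, fun c hc hcR hcB hnB hρ => ?_⟩
  obtain ⟨Φ, a1, a2, a3, a4⟩ := F2 c hc hcR hρ
  have l1 := log_div_nonneg hn hnX
  have l2 : 0 ≤ Real.log X := Real.log_natCast_nonneg X
  have l3 : 0 ≤ Real.log Pm := Real.log_natCast_nonneg Pm
  have l4 : 0 ≤ t * (1 + Real.log X) := by positivity
  refine ⟨?_, fun c0 p e hp => ?_⟩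
  · have h := (abs_le.1 (pot_trans hT hf hc hcB hn hnB a2 a1)).1
    have h2 := IV.le_harm X
    linarith
  · have hc0 : 0 < c0 := Nat.pos_of_ne_zero (by rintro rfl; omega)
    have hp0 : 0 < p := Nat.pos_of_ne_zero (by rintro rfl; omega)
    have hρ0 : 0 < ρ := by
      have h1 : (0 : ℝ) < R := by exact_mod_cast hR0
      have h2 : (0 : ℝ) < t * c := mul_pos ht (by exact_mod_cast hc)
      exact (mul_pos_iff_of_pos_left h2).1 (h1.trans_le hρ)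
    obtain ⟨Φ', b1, b2, b3, -⟩ := G2 c0 hc0 ((e ▸ Nat.le_mul_of_pos_right c0 hp0).trans hcR) (by
      have h1 : t / Pm * c0 * (ρ * (Pm : ℝ) ^ 2) = t * (c0 * Pm) * ρ := by field_simp
      have h2 : (c : ℝ) ≤ c0 * Pm := by exact_mod_cast e ▸ Nat.mul_le_mul_left c0 hp
      rw [h1]
      exact hρ.trans (by gcongr))
    have h := hT B n c X (fun m => ‖Φ m - conj (f p) * Φ' (p * m)‖ ^ 2) 4 hc hcB hn hnB fun m => by
      rw [abs_of_nonneg (sq_nonneg _)]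
      refine sq_le_four (a2 m) ?_
      rw [norm_mul, Complex.norm_conj]
      exact mul_le_one₀ (hf.1.bd p) (norm_nonneg _) (b2 _)
    have e1 : br (wt B n) c (F c - G c0) (F c - G c0) =
        c * ∑ N ∈ (wt B n).s.filter (fun N => c ∣ N),
          (wt B n).w N * ‖Φ (N / c) - conj (f p) * Φ' (p * (N / c))‖ ^ 2 := by
      rw [br_eq]
      congr 1
      refine sum_congr rfl fun N hN => ?_
      obtain ⟨m, -, e2, e3⟩ := mem_lev hc hcB hN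
      have e4 : G c0 (c * m) = f c * (conj (f p) * Φ' (p * m)) := by
        rw [e, mul_assoc, b1, hf.1.mul _ _ hc0.ne' hp0.ne']
        linear_combination (-(f c0 * Φ' (p * m))) * mul_conj_one (hf.2 p hp0.ne')
      rw [re_self, e3, e2, Pi.sub_apply, a1, e4, ← mul_sub, norm_mul, hf.2 c hc.ne', one_mul]
    have h1 : ∑ m ∈ Icc 1 X, ‖Φ m - conj (f p) * Φ' (p * m)‖ ^ 2 / m ≤
        3 * (dst X Ψ1 Φ + dst X Ψ1 (Up f p Ψ) +
          ∑ m ∈ Icc 1 X, ‖Ψ (p * m) - Φ' (p * m)‖ ^ 2 / m) := by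
      rw [dst, dst, ← sum_add_distrib, ← sum_add_distrib, mul_sum]
      refine sum_le_sum fun m _ => ?_
      rw [← add_div, ← add_div, ← mul_div_assoc]
      exact div_le_div_of_nonneg_right (three _ _ _ _ _ (hf.1.bd p)) (Nat.cast_nonneg m)
    have h2 := sum_dil (g := fun n => ‖Ψ n - Φ' n‖ ^ 2) (fun _ => sq_nonneg _) hp0 hp X
    have h3 : (Pm : ℝ) * dst (Pm * X) Ψ Φ' ≤ 8 * (t * (1 + Real.log X + Real.log Pm)) := by
      refine (mul_le_mul_of_nonneg_left b3 hP0.le).trans (le_of_eq ?_)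
      have hX0 : (X : ℝ) ≠ 0 := by exact_mod_cast (show X ≠ 0 by omega)
      push_cast
      rw [Real.log_mul hP0.ne' hX0]
      field_simp
      ring
    have h4 : t * (1 + Real.log X) ≤ t * (1 + Real.log X + Real.log Pm) :=
      mul_le_mul_of_nonneg_left (by linarith) ht.le
    have h5 := (abs_le.1 h).2
    rw [dst] at h3
    rw [e1]
    linarith

theorem down (hR : IV.S_Regrid) (hT : S_Trans) : S_Down := by
  refine ⟨25, by norm_num, fun XX hX f hf X B n R a H t u hu ha haB hn hnX hnB hH ht ht2 haH => ?_⟩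
  have ha' : (0 : ℝ) < a := by exact_mod_cast ha
  have hR0 : (0 : ℝ) < R :=
    (mul_pos_iff_of_pos_left ht).1 ((mul_pos ha' (by linarith)).trans_le haH)
  have h1 : Gr XX (R / a) (Up f a u) := IV.Gr.up hX hu hf.1.bd ha
  obtain ⟨Φ, a1, -, a3⟩ := hR XX hX (R / a) H t _ X hH
    (by rw [← mul_div_assoc, le_div_iff₀ ha']; linarith) ht ht2 h1
  refine ⟨Φ, a1, (a3 f hf.1.bd).trans ?_⟩
  have h := (abs_le.1 (pot_trans hT hf ha haB hn hnB (u := u) (h1.bd hX (div_pos hR0 ha'))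
    fun m => by rw [Up, ← mul_assoc, mul_conj_one (hf.2 a ha.ne'), one_mul])).2
  have h2 := IV.harm_le X
  have l1 := log_div_nonneg hn hnX
  have l2 : 0 ≤ Real.log X := Real.log_natCast_nonneg X
  have l4 : 0 ≤ t * (1 + Real.log X) := by positivity
  linarith

end Pool.Agent.P.MP_a14ce1_nt.Pl
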