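import Pool.Agent.P.MP_a14ce1_nt.Nil.Pl.St
import Pool.Agent.P.MP_a14ce1_nt.IV.Grid

/-! Transfer between the block weight and logarithmic sums, and the dyadic blocks. -/

open Finset

namespace Pool.Agent.P.MP_a14ce1_nt.Pl

open Ch (rs)
open IV (cell ws wa)

namespace TransP

theorem hs_pos {n : ℕ} (hn : 2 ≤ n) : 0 < hs n :=
  sum_pos (fun j hj => by
    have : (0 : ℝ) < j := by exact_mod_cast (mem_Ico.1 hj).1
    positivity) ⟨1, mem_Ico.2 ⟨le_rfl, hn⟩⟩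

theorem mem_cell_nat {B c j m : ℕ} (hB : 0 < B) (hc : 0 < c) :
    m ∈ cell ((B : ℝ) / c) j ↔ c * m / B = j := by
  rw [IV.mem_cell_div hc, IV.mem_cell_floor (by exact_mod_cast hB), Nat.floor_div_eq_div]

theorem eq_ws {B n c : ℕ} (φ : ℕ → ℝ) (hc : 0 < c) (hB : 0 < B) (hn : 2 ≤ n) :
    hs n * (c * ∑ N ∈ (wt B n).s.filter (fun N => c ∣ N), (wt B n).w N * φ (N / c)) =
      ws ((B : ℝ) / c) n fun _ => φ := by
  have h0 := hs_pos hn
  have hm : ∀ N ∈ (wt B n).s.filter (fun N => c ∣ N), N / B ∈ Ico 1 n := fun N hN => by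
    obtain ⟨h1, h2⟩ := mem_Ico.1 (mem_filter.1 hN).1
    exact mem_Ico.2 ⟨(Nat.le_div_iff_mul_le hB).2 (by omega), (Nat.div_lt_iff_lt_mul hB).2 h2⟩
  rw [← sum_fiberwise_of_maps_to hm, ws, mul_sum, mul_sum]
  refine sum_congr rfl fun j hj => ?_
  obtain ⟨j1, j2⟩ := mem_Ico.1 hj
  have e : ∑ N ∈ ((wt B n).s.filter (fun N => c ∣ N)).filter (fun N => N / B = j),
      (wt B n).w N * φ (N / c) = ∑ m ∈ cell ((B : ℝ) / c) j, 1 / (j * B * hs n) * φ m := by
    refine sum_bij' (fun N _ => N / c) (fun m _ => c * m) (fun N hN => ?_) (fun m hm => ?_)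
      (fun N hN => ?_) (fun m _ => Nat.mul_div_cancel_left m hc) fun N hN => ?_
    · obtain ⟨a1, a2⟩ := mem_filter.1 hN
      rw [mem_cell_nat hB hc, Nat.mul_div_cancel' (mem_filter.1 a1).2, a2]
    · rw [mem_cell_nat hB hc] at hm
      refine mem_filter.2 ⟨mem_filter.2 ⟨mem_Ico.2 ⟨?_, ?_⟩, dvd_mul_right _ _⟩, hm⟩
      · simpa using (Nat.le_div_iff_mul_le hB).1 (hm ▸ j1 : 1 ≤ c * m / B)
      · exact (Nat.div_lt_iff_lt_mul hB).1 (hm ▸ j2)
    · exact Nat.mul_div_cancel' (mem_filter.1 (mem_filter.1 hN).1).2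
    · simp only [wt, (mem_filter.1 hN).2]
  have hj' : (0 : ℝ) < j := by exact_mod_cast j1
  have hB' : (0 : ℝ) < B := by exact_mod_cast hB
  have hc' : (0 : ℝ) < c := by exact_mod_cast hc
  rw [e, ← mul_sum, wa, smul_eq_mul]
  field_simp

theorem log_le_harm {b : ℕ} (hb : 1 ≤ b) : Real.log b ≤ ∑ m ∈ Ico 1 b, 1 / (m : ℝ) := by
  obtain ⟨b, rfl⟩ : ∃ k, b = k + 1 := ⟨b - 1, by omega⟩
  have := log_add_one_le_harmonic b
  rw [harmonic_eq_sum_Icc] at this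
  rw [Ico_add_one_right_eq_Icc]
  simpa using this

theorem cut {φ : ℕ → ℝ} {K : ℝ} (hφ : ∀ m, |φ m| ≤ K) {a b X : ℕ} (ha : 1 ≤ a) (hab : a ≤ b)
    (hb : b ≤ X) : |∑ m ∈ Ico a b, φ m / m - ∑ m ∈ Icc 1 X, φ m / m| ≤
      K * (2 + Real.log (a - 1 : ℕ) + (Real.log X - Real.log b)) := by
  have hK : 0 ≤ K := (abs_nonneg _).trans (hφ 0)
  have e1 : ∀ (n : ℕ) (φ : ℕ → ℝ), ∑ m ∈ Icc 1 n, φ m = ∑ m ∈ Ico 1 (n + 1), φ m := fun n φ => by
    rw [Ico_add_one_right_eq_Icc]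
  have e2 : ∀ s : Finset ℕ, |∑ m ∈ s, φ m / m| ≤ K * ∑ m ∈ s, 1 / (m : ℝ) := fun s => by
    rw [mul_sum]
    refine (abs_sum_le_sum_abs _ _).trans (sum_le_sum fun m _ => ?_)
    rw [abs_div, Nat.abs_cast, mul_one_div]
    exact div_le_div_of_nonneg_right (hφ m) (Nat.cast_nonneg m)
  have h1 := IV.harm_le (a - 1)
  have h2 := IV.harm_le X
  have h3 := log_le_harm (ha.trans hab)
  rw [e1, Nat.sub_add_cancel ha] at h1
  rw [e1, ← sum_Ico_consecutive _ (show 1 ≤ b by omega) (show b ≤ X + 1 by omega)] at h2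
  rw [e1, ← sum_Ico_consecutive _ (show 1 ≤ b by omega) (show b ≤ X + 1 by omega),
    ← sum_Ico_consecutive _ ha hab]
  have h4 := abs_le.1 ((e2 (Ico 1 a)).trans (mul_le_mul_of_nonneg_left h1 hK))
  have h5 := abs_le.1 ((e2 (Ico b (X + 1))).trans (mul_le_mul_of_nonneg_left
    (show _ ≤ 1 + (Real.log X - Real.log b) by linarith) hK))
  rw [abs_le]
  constructor <;> nlinarith

theorem rs_block (P : Finset ℕ) (hP : ∀ p ∈ P, 1 ≤ p) (e : ℕ) :
    rs (P.filter fun p => Nat.log 2 p = e) ≤ 1 := by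
  have hs : (P.filter fun p => Nat.log 2 p = e) ⊆ Ico (2 ^ e) (2 ^ (e + 1)) := fun p hp => by
    obtain ⟨h1, rfl⟩ := mem_filter.1 hp
    exact mem_Ico.2 ⟨Nat.pow_log_le_self 2 (by have := hP p h1; omega),
      Nat.lt_pow_succ_log_self one_lt_two p⟩
  calc _ ≤ ∑ p ∈ Ico (2 ^ e) (2 ^ (e + 1)), (1 : ℝ) / (p : ℕ) :=
        sum_le_sum_of_subset_of_nonneg hs fun _ _ _ => by positivity
    _ ≤ ∑ _p ∈ Ico (2 ^ e) (2 ^ (e + 1)), (1 : ℝ) / 2 ^ e := sum_le_sum fun p hp => by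
        have : ((2 : ℝ)) ^ e ≤ p := by exact_mod_cast (mem_Ico.1 hp).1
        exact one_div_le_one_div_of_le (by positivity) this
    _ = 1 := by
        rw [sum_const, Nat.card_Ico, nsmul_eq_mul,
          show 2 ^ (e + 1) - 2 ^ e = 2 ^ e by rw [pow_succ, mul_two, Nat.add_sub_cancel]]
        push_cast; field_simp

end TransP

open TransP

theorem trans : S_Trans := by
  intro B n c X φ K hc hcB hn hX hφ
  have hK : 0 ≤ K := (abs_nonneg _).trans (hφ 0)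
  have hc' : (0 : ℝ) < c := by exact_mod_cast hc
  have hn' : (2 : ℝ) ≤ n := by exact_mod_cast hn
  have h1 : (1 : ℝ) ≤ (B : ℝ) / c := by rw [one_le_div hc']; exact_mod_cast hcB
  set ρ : ℝ := (B : ℝ) / c with hρ
  have h2 : n * ρ ≤ X := by
    rw [hρ, ← mul_div_assoc, div_le_iff₀' hc']; exact_mod_cast hX
  have a1 := IV.conv ρ K n φ h1 (by omega) hφ
  have a2 := cut hφ (a := ⌈ρ⌉₊) (b := ⌈(n : ℝ) * ρ⌉₊) (X := X)
    (Nat.one_le_ceil_iff.2 (by linarith)) (Nat.ceil_mono (by nlinarith)) (Nat.ceil_le.2 h2)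
  have b1 : Real.log (⌈ρ⌉₊ - 1 : ℕ) ≤ Real.log ρ := by
    rcases Nat.eq_zero_or_pos (⌈ρ⌉₊ - 1) with h | h
    · rw [h]; simpa using Real.log_nonneg h1
    · refine Real.log_le_log (by exact_mod_cast h) ?_
      rw [Nat.cast_sub (by omega), Nat.cast_one]
      linarith [Nat.ceil_lt_add_one (show 0 ≤ ρ by linarith)]
  have b2 : Real.log n + Real.log ρ ≤ Real.log ⌈(n : ℝ) * ρ⌉₊ := by
    rw [← Real.log_mul (by linarith) (by linarith)]
    exact Real.log_le_log (by nlinarith) (Nat.le_ceil _)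
  have b3 : Real.log ((X : ℝ) / n) = Real.log X - Real.log n :=
    Real.log_div (by nlinarith) (by linarith)
  rw [eq_ws φ hc (by omega) hn, b3]
  refine (abs_sub_le _ _ _).trans ((add_le_add a1 a2).trans ?_)
  have : K * (2 + Real.log (⌈ρ⌉₊ - 1 : ℕ) + (Real.log X - Real.log ⌈(n : ℝ) * ρ⌉₊)) ≤
      K * (2 + (Real.log X - Real.log n)) := mul_le_mul_of_nonneg_left (by linarith) hK
  linarith

theorem blocks : S_Blocks := by
  classical
  intro P Z Q hQ hP hZ h2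
  set L := Nat.log 2 Z with hL
  set Bl : ℕ → Finset ℕ := fun e => P.filter fun p => Nat.log 2 p = e with hBl
  have hne : P.Nonempty := by
    by_contra h
    rw [not_nonempty_iff_eq_empty.1 h] at h2
    simp [rs] at h2
    linarith
  have hZ1 : 1 ≤ Z := by obtain ⟨p, hp⟩ := hne; exact (hP p hp).1.trans (hP p hp).2
  have hLQ : ((L : ℝ) + 1) ≤ Q ^ 2 := by
    have a1 : ((2 : ℝ)) ^ L ≤ Z := by exact_mod_cast Nat.pow_log_le_self 2 (by omega : Z ≠ 0)
    have a2 := Real.log_le_log (by positivity) a1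
    rw [Real.log_pow] at a2
    have a3 := Real.log_two_gt_d9
    have a4 : (0 : ℝ) ≤ L := Nat.cast_nonneg L
    nlinarith
  have hsum : ∑ e ∈ range (L + 1), rs (Bl e) = rs P :=
    sum_fiberwise_of_maps_to (fun p hp => mem_range.2
      (Nat.lt_succ_of_le (Nat.log_mono_right (hP p hp).2))) _
  set E := (range (L + 1)).filter fun e => 1 / Q ^ 2 ≤ rs (Bl e) with hE
  have hE1 : rs P - 1 ≤ ∑ e ∈ E, rs (Bl e) := by
    rw [← hsum, ← sum_filter_add_sum_filter_not _ fun e => 1 / Q ^ 2 ≤ rs (Bl e)]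
    have : ∑ e ∈ (range (L + 1)).filter (fun e => ¬ 1 / Q ^ 2 ≤ rs (Bl e)), rs (Bl e) ≤ 1 :=
      calc _ ≤ ∑ _e ∈ (range (L + 1)).filter (fun e => ¬ 1 / Q ^ 2 ≤ rs (Bl e)), 1 / Q ^ 2 :=
            sum_le_sum fun e he => (not_le.1 (mem_filter.1 he).2).le
        _ ≤ ∑ _e ∈ range (L + 1), 1 / Q ^ 2 :=
            sum_le_sum_of_subset_of_nonneg (filter_subset _ _) fun _ _ _ => by positivity
        _ ≤ 1 := by
            rw [sum_const, card_range, nsmul_eq_mul, mul_one_div, div_le_one (by positivity)]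
            exact_mod_cast hLQ
    linarith
  have hEne : E.Nonempty := by
    by_contra h
    rw [not_nonempty_iff_eq_empty.1 h, sum_empty] at hE1
    linarith
  obtain ⟨m, hm⟩ : ∃ m, E.card = m + 1 := ⟨E.card - 1, by have := hEne.card_pos; omega⟩
  refine ⟨m, fun i => Bl (E.orderEmbOfFin hm i), E.orderEmbOfFin hm, (E.orderEmbOfFin hm).monotone,
    fun i => filter_subset _ _, fun i i' h => disjoint_left.2 fun p h1 h2 => h ?_, fun i q hq => ?_,
    fun i => ⟨(mem_filter.1 (E.orderEmbOfFin_mem hm i)).2, rs_block P (fun p hp => (hP p hp).1) _⟩,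
    hE1.trans_eq ?_⟩
  · exact (E.orderEmbOfFin hm).injective ((mem_filter.1 h1).2.symm.trans (mem_filter.1 h2).2)
  · obtain ⟨h1, h3⟩ := mem_filter.1 hq
    rw [← h3]
    exact ⟨Nat.pow_log_le_self 2 (by have := (hP q h1).1; omega),
      Nat.lt_pow_succ_log_self one_lt_two q⟩
  · conv_lhs => rw [← map_orderEmbOfFin_univ E hm]
    rw [sum_map]; rfl

end Pool.Agent.P.MP_a14ce1_nt.Pl
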