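import Pool.Agent.P.MP_a14ce1_nt.Nil.Pl.St
import Pool.Agent.P.MP_a14ce1_nt.Nil.EL4

/-! Removal of a whole sub-cube for the block weight. -/

open Finset

namespace Pool.Agent.P.MP_a14ce1_nt.Pl

open Nil.ES Ax

namespace FsC

theorem mass_le (hC : S_Cells) {B n R c : ℕ} (hB : 0 < B) (hR : R ∣ B) (hn : 2 ≤ n) (hc : 0 < c)
    (h : c ≤ R) : mass (wt B n) c ≤ 2 := by
  obtain ⟨J, ω, h0, h1, h2⟩ := hC B n R hB hR hn
  have e : mass (wt B n) c = br (wt B n) c 1 1 := by simp [br_eq, mass, mul_sum]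
  rw [e, h2, ← mul_one (2 : ℝ), ← h1, mul_sum]
  refine sum_le_sum fun j _ => ?_
  rw [mul_left_comm, sv, Nil.EL.sum_level hc]
  refine mul_le_mul_of_nonneg_left ?_ (h0 j)
  have a1 := (ceilDiv_le_iff_le_mul (b := j * R) hc).mp le_rfl
  have a2 : (j + 1) * R ⌈/⌉ c ≤ j * R ⌈/⌉ c + (R / c + 1) := by
    rw [ceilDiv_le_iff_le_mul hc, mul_add c, add_mul, one_mul]
    exact add_le_add a1 (Nat.lt_mul_div_succ R hc).le
  have a3 : c * ((j + 1) * R ⌈/⌉ c - j * R ⌈/⌉ c) ≤ 2 * R := by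
    refine (Nat.mul_le_mul_left c (Nat.sub_le_iff_le_add'.mpr a2)).trans ?_
    have := Nat.mul_div_le R c
    rw [mul_add]; omega
  simp only [pc, Pi.one_apply, map_one, mul_one, sum_const, Nat.card_Ico, nsmul_eq_mul]
  exact_mod_cast a3

end FsC

theorem fsC (hC : S_Cells) : S_FsC := by
  intro A hA h
  obtain ⟨C, h⟩ := Nil.EL.fsC hA h
  obtain ⟨m, m1, m2, m3⟩ : ∃ m : ℕ, C ≤ m ∧ 8 ≤ m ∧ Real.exp 2 * C.factorial ≤ m :=
    ⟨C + 8 + ⌈Real.exp 2 * C.factorial⌉₊, by omega, by omega,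
      (Nat.le_ceil _).trans (by exact_mod_cast Nat.le_add_left _ _)⟩
  refine ⟨2 * (m * C) + 6, fun Q hQ ι _ _ g D β B n R c Z h1 h2 h3 h4 h5 hB hR hn hc h6 h7 φ hφ ψ hψ
    => ?_⟩
  have hQ1 : 1 ≤ Q := by linarith
  have hc' : (0 : ℝ) < c := by exact_mod_cast hc
  have hB' : (0 : ℝ) < B := by exact_mod_cast hB
  have a1 : (m : ℝ) ≤ 2 ^ m := by exact_mod_cast Nat.lt_two_pow_self.le
  have a2 : (c : ℝ) ≤ R := (le_mul_of_one_le_right hc'.le (one_le_pow₀ hQ1)).trans h6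
  have hR' : (0 : ℝ) < R := hc'.trans_le a2
  have a3 : 1 ≤ hs n := by
    simpa [hs] using single_le_sum (f := fun j : ℕ => (1 : ℝ) / j) (fun _ _ => by positivity)
      (mem_Ico.mpr ⟨le_rfl, hn⟩)
  have a4 : 1 ≤ (Z : ℝ) ^ D.card := by
    rcases D.eq_empty_or_nonempty with rfl | ⟨k, hk⟩
    · simp
    obtain ⟨p, hp⟩ : (g k).s.Nonempty := by
      rw [nonempty_iff_ne_empty]; intro e; simpa [e] using (g k).one
    exact one_le_pow₀ (by exact_mod_cast ((h1 k hk).pr p hp).pos.trans_le (h4 k hk p hp).2)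
  refine (h (Q ^ m) (le_trans (by exact_mod_cast m1) (a1.trans (by gcongr))) ι g D β ((Q ^ m) ^ C)
    Z R c (fun k hk p hp => ⟨(h1 k hk).pr p hp, (h4 k hk p hp).1, le_trans ?_ ((h1 k hk).lo p hp),
      by exact_mod_cast (h4 k hk p hp).2⟩) h2 h3 ?_ le_rfl hc (le_trans ?_ h6) (wt B n) B (n * B) rfl
    (fun a b ha hb => ?_) (fun N => ⌊(N : ℝ) / R⌋₊) _ (fun a b e => Nat.floor_mono (by gcongr))
    (fun a b => ?_) (fun Φ hΦ j => ?_) φ hφ ψ hψ).trans ?_
  · rw [← pow_mul Q, ← pow_mul Q]; exact pow_le_pow_right₀ hQ1 (by omega)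
  · calc _ ≤ ((2 * β) ^ m) ^ D.card := by
          gcongr
          rw [mul_right_comm, mul_pow]
          gcongr
          exact m3.trans a1
      _ ≤ _ := by rw [← pow_mul, mul_comm m, pow_mul]; gcongr
  · rw [← pow_mul]; gcongr; omega
  · have : (0 : ℝ) < (a / B : ℕ) := by exact_mod_cast Nat.div_pos ha hB
    simp only [wt]
    gcongr
  · have b1 := Nat.floor_le (a := ((a + b : ℕ) : ℝ) / R) (by positivity)
    have b2 := Nat.lt_floor_add_one ((a : ℝ) / R)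
    push_cast at b1 ⊢
    rw [add_div] at b1 ⊢
    linarith
  · obtain ⟨u, hu, e⟩ := hΦ j
    exact ⟨u, hu, fun N hN => e N ((IV.mem_cell_floor hR').mpr hN)⟩
  · have b1 := FsC.mass_le hC hB hR hn hc (by exact_mod_cast a2)
    have b2 : c * (wt B n).w B ≤ 1 / ((Z : ℝ) ^ D.card * Q) ^ (2 * (m * C) + 6) := by
      simp only [wt, Nat.div_self hB, Nat.cast_one, one_mul]
      rw [mul_one_div, div_le_div_iff₀ (by positivity) (by positivity), one_mul]
      exact h7.trans (le_mul_of_one_le_right hB'.le a3)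
    have b3 : ((Z : ℝ) ^ D.card * Q ^ m) ^ C * Q ^ 6 ≤ ((Z : ℝ) ^ D.card * Q) ^ (2 * (m * C) + 6) := by
      have b4 := one_le_mul_of_one_le_of_one_le a4 hQ1
      rw [pow_add]
      refine mul_le_mul (le_trans ?_ (pow_le_pow_right₀ b4 (by omega : m * C ≤ _)))
        (by gcongr; exact le_mul_of_one_le_left (by linarith) a4) (by positivity) (by positivity)
      rw [pow_mul, mul_pow _ Q]
      gcongr
      exact le_self_pow₀ a4 (by omega)
    have b5 : 2 ^ 5 * Q ≤ Q ^ 6 := by rw [pow_succ Q]; gcongr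
    have b6 : 2 ^ 7 * Q ≤ Q ^ m := le_trans (by rw [pow_succ Q]; gcongr) (pow_le_pow_right₀ hQ1 m2)
    calc _ ≤ 20 / (2 ^ 7 * Q) * 2 + 13 * ((Z : ℝ) ^ D.card * Q ^ m) ^ C *
          (1 / (((Z : ℝ) ^ D.card * Q ^ m) ^ C * (2 ^ 5 * Q))) := by
          have : 0 ≤ mass (wt B n) c := sum_nonneg fun N _ => mul_nonneg hc'.le ((wt B n).nn N)
          gcongr
          exact b2.trans (by gcongr; exact le_trans (by gcongr) b3)
      _ = 23 / 32 * (1 / Q) := by field_simp; norm_num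
      _ ≤ _ := mul_le_of_le_one_left (by positivity) (by norm_num)

end Pool.Agent.P.MP_a14ce1_nt.Pl
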