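import Pool.Agent.P.MP_a14ce1_nt.Nil.Pl.St

/-!
The plain step with explicit parameters: choice of the block length and of the grids, and the
bookkeeping of the error terms.
-/

open Finset

namespace Pool.Agent.P.MP_a14ce1_nt.Pl

open Ch (rs)
open Nil.ES (Wt Pr br mass pot FsN ExtN FsC)
open IV (Hull Gr App Up Ep)
open Ax (At PW hull sv pc)
open Pool.Agent.P.MP_e30989_nt.W (UCM)

namespace Mid

/-- the mean of an affine function -/
theorem Ep_aff {P : Finset ℕ} (hP : 0 < rs P) (φ : ℕ → ℝ) (c h : ℝ) :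
    Ep P (fun p => (3 * φ p + c) / h) = (3 * Ep P φ + c) / h := by
  have h1 : ∑ p ∈ P, (1 : ℝ) / (p * rs P) = 1 := (prOf P hP).one
  have h2 : ∀ p ∈ P, (1 : ℝ) / (p * rs P) * ((3 * φ p + c) / h) =
      3 / h * (1 / (p * rs P) * φ p) + c / h * (1 / (p * rs P)) := fun p _ => by ring
  rw [Ep, sum_congr rfl h2, sum_add_distrib, ← mul_sum, ← mul_sum, h1, Ep]
  ring

theorem ne_of_pos {P : Finset ℕ} (hP : 0 < rs P) : P.Nonempty := by
  rcases P.eq_empty_or_nonempty with rfl | h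
  · simp [rs] at hP
  · exact h

/-- the base length, the block length and the number of blocks -/
theorem sizes (Q y l lo P2 X c C : ℕ) (ρ : ℝ) (hQ : 1 ≤ Q) (hQy : Q ≤ y) (hy : 2 ≤ y) (hl : 1 ≤ l)
    (hP : 1 ≤ P2) (hc : 0 < c) (hC : c + 4 ≤ C) (hρ : (y : ℝ) ^ C ≤ ρ) (hρ2 : ρ ≤ P2)
    (hlo : lo ≤ (y ^ 2) ^ l) (hlo1 : 1 ≤ lo) (hX : (y ^ l * P2) ^ C ≤ X) :
    ∃ r0 g n : ℕ, y * lo * y ^ (c + 2) ≤ r0 ∧ (r0 : ℝ) ≤ lo * ρ / Q ∧ (y ^ l * P2) ^ c ≤ 2 ^ g ∧
      2 ≤ n ∧ n * (r0 * 2 ^ g) ≤ X ∧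
      Real.log ((X : ℝ) / n) ≤ (c + 4) * (l * Real.log y + Real.log P2) := by
  have hQ' : (1 : ℝ) ≤ Q := by exact_mod_cast hQ
  have hy' : (1 : ℝ) ≤ y := by exact_mod_cast (by omega : 1 ≤ y)
  have hρ0 : 0 ≤ ρ := le_trans (by positivity) hρ
  set W := y ^ l * P2 with hW
  have hyl : 2 ≤ y ^ l := hy.trans (Nat.le_self_pow (by omega) y)
  have hW2 : 2 ≤ W := hyl.trans (Nat.le_mul_of_pos_right _ hP)
  have hWc : 1 < W ^ c := Nat.one_lt_pow hc.ne' (by omega)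
  set r0 := ⌊(lo : ℝ) * ρ / Q⌋₊ with hr0
  set g := Nat.clog 2 (W ^ c) with hg
  have h1 : (r0 : ℝ) ≤ lo * ρ / Q := Nat.floor_le (by positivity)
  have h0 : y * lo * y ^ (c + 2) ≤ r0 := by
    refine Nat.le_floor ?_
    rw [le_div_iff₀ (by linarith)]
    have a1 : (y : ℝ) ^ (c + 4) ≤ ρ := (pow_le_pow_right₀ hy' hC).trans hρ
    have a2 : (Q : ℝ) ≤ y := by exact_mod_cast hQy
    push_cast
    calc (y : ℝ) * lo * y ^ (c + 2) * Q ≤ y * lo * y ^ (c + 2) * y := by gcongr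
      _ = lo * y ^ (c + 4) := by ring
      _ ≤ lo * ρ := by gcongr
  have hr : 0 < r0 := lt_of_lt_of_le (by positivity) h0
  have h2 : W ^ c ≤ 2 ^ g := Nat.le_pow_clog (by norm_num) _
  have h3 : 2 ^ g ≤ 2 * W ^ c := by
    have a1 := Nat.pow_pred_clog_lt_self (b := 2) (by norm_num) hWc
    have a2 : 0 < g := Nat.clog_pos (by norm_num) hWc
    rw [← hg] at a1
    obtain ⟨g', hg'⟩ : ∃ g', g = g' + 1 := ⟨g - 1, by omega⟩
    rw [hg'] at a1 ⊢
    rw [Nat.pred_succ] at a1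
    rw [pow_succ]
    omega
  have h4 : r0 ≤ W ^ 2 := by
    have a1 : (r0 : ℝ) ≤ lo * P2 :=
      h1.trans ((div_le_self (by positivity) hQ').trans (by gcongr))
    have a2 : r0 ≤ lo * P2 := by exact_mod_cast a1
    calc r0 ≤ (y ^ 2) ^ l * P2 := a2.trans (Nat.mul_le_mul_right _ hlo)
      _ ≤ (y ^ 2) ^ l * P2 ^ 2 := Nat.mul_le_mul_left _ (Nat.le_self_pow (by norm_num) _)
      _ = W ^ 2 := by rw [hW]; ring
  set B := r0 * 2 ^ g with hB
  have hB0 : 0 < B := by positivity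
  have h5 : 2 * B ≤ W ^ (c + 4) := by
    calc 2 * B ≤ 2 * (W ^ 2 * (2 * W ^ c)) := Nat.mul_le_mul_left _ (Nat.mul_le_mul h4 h3)
      _ = 2 * 2 * W ^ (c + 2) := by ring
      _ ≤ W * W * W ^ (c + 2) := by gcongr
      _ = W ^ (c + 4) := by ring
  have h6 : W ^ (c + 4) ≤ X := (Nat.pow_le_pow_right (by omega) hC).trans hX
  have h7 : 2 ≤ X / B := (Nat.le_div_iff_mul_le hB0).2 (h5.trans h6)
  refine ⟨r0, g, X / B, h0, h1, h2, h7, Nat.div_mul_le_self _ _, ?_⟩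
  have h8 : X ≤ W ^ (c + 4) * (X / B) := by
    have a1 : X < B * (X / B + 1) := Nat.lt_mul_div_succ X hB0
    calc X ≤ B * (X / B + 1) := a1.le
      _ ≤ B * (2 * (X / B)) := Nat.mul_le_mul_left _ (by omega)
      _ = 2 * B * (X / B) := by ring
      _ ≤ _ := Nat.mul_le_mul_right _ h5
  have hn : (0 : ℝ) < ((X / B : ℕ) : ℝ) := by exact_mod_cast (by omega : 0 < X / B)
  have hX0 : (0 : ℝ) < X := by
    exact_mod_cast lt_of_lt_of_le (by positivity) h6
  have h9 : (X : ℝ) / ((X / B : ℕ) : ℝ) ≤ (W : ℝ) ^ (c + 4) := by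
    rw [div_le_iff₀ hn]
    exact_mod_cast h8
  refine (Real.log_le_log (by positivity) h9).trans (le_of_eq ?_)
  rw [Real.log_pow, hW]
  push_cast
  rw [Real.log_mul (by positivity) (by positivity), Real.log_pow]

/-- the bookkeeping of the error terms -/
theorem final (L d E T r S Q h s p cs cd D K M : ℝ) (hL : 1 ≤ L) (hE : 0 ≤ E) (hM : 0 ≤ M)
    (hr : 2 ≤ r) (hS : r - 1 ≤ S) (hQ : 0 < Q) (h1 : 1 ≤ h) (h2 : h ≤ 1 + L) (hs0 : 0 < s)
    (hs1 : s ≤ 1) (hcs : 0 < cs) (hcd : 0 < cd) (hD : 0 ≤ D)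
    (hT : T = E + (1 / r + 1 / Q) * L + M) (hK : (17 * cs + cd) * D + 100 ≤ K)
    (hp : (L - d - cs * (D * T)) / h - 6 * s -
      (16 * max ((3 * E + cs * (D * T)) / h) 0 + 12 / S + 1 / Q) / s - 1 / Q ≤ p) :
    L - h * p + cd * (D * T) ≤ d + K * s * L + K / s * T := by
  have a1 : 0 ≤ 1 / r * L := by positivity
  have a2 : 0 ≤ 1 / Q * L := by positivity
  have hT0 : 0 ≤ T := by rw [hT]; positivity
  have hh : 0 < h := by linarith
  have hS0 : 0 < S := by linarith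
  have hDT : 0 ≤ D * T := mul_nonneg hD hT0
  rw [max_eq_left (by positivity)] at hp
  have b1 : h * (1 / Q) ≤ 2 * (1 / Q * L) := by
    have : h * (1 / Q) ≤ 2 * L * (1 / Q) := by gcongr; linarith
    linarith
  have b2 : h * (12 / S) ≤ 48 * (1 / r * L) := by
    have c1 : 1 / S ≤ 2 / r := by
      rw [div_le_div_iff₀ hS0 (by linarith)]
      linarith
    have c2 : h * (1 / S) ≤ 2 * L * (2 / r) := by gcongr; linarith
    have c3 : h * (12 / S) = 12 * (h * (1 / S)) := by ring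
    have c4 : 2 * L * (2 / r) = 4 * (1 / r * L) := by ring
    linarith
  have b3 : h * s ≤ 2 * (s * L) := by nlinarith
  have b4 : E + 1 / r * L + 1 / Q * L ≤ T := by rw [hT]; linarith
  set U := 16 * ((3 * E + cs * (D * T)) / h) + 12 / S + 1 / Q with hU
  have b5 : h * U ≤ (16 * cs * D + 48) * T := by
    have : h * U = 16 * (3 * E + cs * (D * T)) + h * (12 / S) + h * (1 / Q) := by
      rw [hU]; field_simp
    rw [this]
    linarith
  have b6 : L - d - cs * (D * T) - 6 * (h * s) - h * U / s - h * (1 / Q) ≤ h * p := by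
    have := mul_le_mul_of_nonneg_left hp hh.le
    refine le_trans (le_of_eq ?_) this
    field_simp
  have b7 : h * U / s ≤ (16 * cs * D + 48) * (T / s) := by
    rw [← mul_div_assoc]
    gcongr
  have b8 : T ≤ T / s := le_div_self hT0 hs0 hs1
  have b9 : (cs + cd) * (D * T) ≤ (cs + cd) * (D * (T / s)) := by gcongr
  have b10 : 0 ≤ T / s := by positivity
  have b11 : ((17 * cs + cd) * D + 100) * (T / s) ≤ K * (T / s) := by gcongr
  have b12 : 12 * (s * L) ≤ K * (s * L) := by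
    have : 0 ≤ (17 * cs + cd) * D := by positivity
    gcongr
    linarith
  have b13 : K / s * T = K * (T / s) := by ring
  have b14 : K * s * L = K * (s * L) := by ring
  rw [b13, b14]
  nlinarith

end Mid

theorem mid (hB : S_Basic) (hS : S_Setup) (hD : S_Down) (hK : S_Blocks) (hC : S_Conc)
    (hH : IV.S_Hull) : S_Mid := by
  intro A hA
  obtain ⟨c, hc, hC⟩ := hC A hA
  obtain ⟨cs, hcs, hS⟩ := hS
  obtain ⟨cd, hcd, hD⟩ := hD
  have hX := hH A hA.atm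
  refine ⟨2 * c + 4 + ⌈(17 * cs + cd) * (c + 8) + 100⌉₊, by omega, ?_⟩
  set C := 2 * c + 4 + ⌈(17 * cs + cd) * (c + 8) + 100⌉₊ with hCd
  have hC1 : 2 * c + 4 ≤ C := by omega
  have hC2 : (17 * cs + cd) * (c + 8) + 100 ≤ (C : ℝ) :=
    (Nat.le_ceil _).trans (Nat.cast_le.2 (by omega))
  clear_value C
  intro f Q y l β lo Pm P1 P2 X ρ E s Ψ Ψ1 G G0 hf hΨ hΨ1 hl hβ hQ hy hPm hρ hP1 hP12 hP2 hPy hXX
    hG hG0 hGd hGd0 hGm hG0m hlo ha hE hEp hrs hs0 hs1
  have hQC : C ≤ Q :=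
    ((Nat.le_mul_of_pos_right C hβ).trans (Nat.le_self_pow (by omega) _)).trans hQ
  have hQy : Q ≤ y := (Nat.le_self_pow (by omega) _).trans hy
  have hQ2 : (2 : ℝ) ≤ Q := by exact_mod_cast (by omega : 2 ≤ Q)
  have hy2 : 2 ≤ y := by omega
  have hy1 : (1 : ℝ) ≤ y := by exact_mod_cast (by omega : 1 ≤ y)
  have hPm1 : 1 ≤ Pm := (Nat.one_le_pow _ _ (by omega)).trans hPm
  have hPm1' : (1 : ℝ) ≤ Pm := by exact_mod_cast hPm1
  have hρ1 : 1 ≤ ρ := (one_le_pow₀ hy1).trans hρ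
  have hρP : ρ ≤ P1 := (le_mul_of_one_le_right (by linarith) (one_le_pow₀ hPm1')).trans hP1
  have hPP : (P1 : ℝ) ≤ P2 := by exact_mod_cast hP12
  have hyP : y ^ 3 ≤ P1 := by
    have : (y : ℝ) ^ 3 ≤ P1 := (pow_le_pow_right₀ hy1 (by omega)).trans (hρ.trans hρP)
    exact_mod_cast this
  have hP13 : 3 ≤ P1 := le_trans (by omega) ((Nat.le_self_pow (by norm_num) y).trans hyP)
  have hPmP : (Pm : ℝ) ≤ P2 := by
    refine le_trans ?_ (hP1.trans hPP)
    exact (le_self_pow₀ hPm1' (by norm_num)).trans (le_mul_of_one_le_left (by positivity) hρ1)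
  have hGp : ∀ k, 0 < rs (G k) := fun k => by
    by_contra h
    have h1 : rs (G k) = 0 := le_antisymm (not_lt.1 h) (Ch.rs_nonneg _)
    have := hGm k
    rw [h1, mul_zero] at this
    linarith
  have hlo1 : 1 ≤ lo := (Nat.one_le_pow _ _ (by omega)).trans hlo
  have hlo2 : lo ≤ (y ^ 2) ^ l := by
    obtain ⟨a, ha'⟩ := Fintype.piFinset_nonempty.2 fun k => Mid.ne_of_pos (hGp k)
    refine (ha a ha').1.trans ?_
    have := prod_le_pow_card univ a (y ^ 2) fun k _ => (hG k _ (Fintype.mem_piFinset.1 ha' k)).2.2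
    simpa using this
  obtain ⟨r0, g, n, h0, h1, h2, hn, hnB, hlog⟩ := Mid.sizes Q y l lo P2 X c C ρ (by omega) hQy hy2
    hl (by omega) hc (by omega) hρ (hρP.trans hPP) hlo2 hlo1 hXX
  have hr0 : 0 < r0 := lt_of_lt_of_le (by positivity) h0
  have hB0 : 0 < r0 * 2 ^ g := by positivity
  have hnX : n ≤ X := (Nat.le_mul_of_pos_right n hB0).trans hnB
  have hW : P2 ≤ y ^ l * P2 := Nat.le_mul_of_pos_left _ (by positivity)
  have hP2X : P2 ≤ X := (hW.trans (Nat.le_self_pow (by omega) _)).trans hXX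
  have hpr : ∀ p ∈ Ch.pr P1 P2, p.Prime ∧ P1 < p ∧ p ≤ P2 := fun p hp => by
    rw [Ch.pr_nat, mem_filter, mem_Ioc] at hp
    exact ⟨hp.2, hp.1⟩
  obtain ⟨m, Bl, rk, hrk, hsub, hdis, hdy, hm, hsum⟩ := hK (Ch.pr P1 P2) P2 Q hQ2
    (fun p hp => ⟨(hpr p hp).1.one_le, (hpr p hp).2.2⟩) hP2 hrs
  have hne : ∀ i, (Bl i).Nonempty := fun i => Mid.ne_of_pos (lt_of_lt_of_le (by positivity) (hm i).1)
  have hP1rk : P1 < 2 * 2 ^ rk 0 := by
    obtain ⟨q, hq⟩ := hne 0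
    have a1 := (hdy 0 q hq).2
    have a2 := (hpr q (hsub 0 hq)).2.1
    rw [pow_succ] at a1
    omega
  have hrkg : ∀ i, rk i ≤ g := fun i => by
    obtain ⟨q, hq⟩ := hne i
    have a1 : 2 ^ rk i ≤ 2 ^ g := (hdy i q hq).1.trans ((hpr q (hsub i hq)).2.2.trans
      (hW.trans ((Nat.le_self_pow hc.ne' _).trans h2)))
    exact (Nat.pow_le_pow_iff_right (by norm_num)).1 a1
  have hdv : ∀ i, r0 * 2 ^ rk i ∣ r0 * 2 ^ g := fun i =>
    Nat.mul_dvd_mul_left _ (pow_dvd_pow 2 (hrkg i))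
  have hA1 : ∀ a ∈ Fintype.piFinset G, (∏ k, a k) * y ^ (c + 2) ≤ r0 := fun a h =>
    (Nat.mul_le_mul_right _ (ha a h).2).trans h0
  have hA2 : ∀ a ∈ Fintype.piFinset G, 2 * (∏ k, a k) * Q ≤ r0 := fun a h => by
    refine le_trans ?_ (hA1 a h)
    calc 2 * (∏ k, a k) * Q ≤ y * (∏ k, a k) * y := by gcongr
      _ = (∏ k, a k) * y ^ 2 := by ring
      _ ≤ _ := Nat.mul_le_mul_left _ (Nat.pow_le_pow_right (by omega) (by omega))
  have hA3 : ∀ a ∈ Fintype.piFinset G, 2 * (∏ k, a k) ≤ r0 := fun a h =>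
    (Nat.le_mul_of_pos_right _ (by omega)).trans (hA2 a h)
  have hA0 : ∀ a ∈ Fintype.piFinset G, 0 < ∏ k, a k := fun a h => hlo1.trans (ha a h).1
  -- the real quantities
  have hlP : 1 ≤ Real.log P2 := by
    rw [Real.le_log_iff_exp_le (by exact_mod_cast (by omega : 0 < P2))]
    have : (3 : ℝ) ≤ P2 := by exact_mod_cast hP13.trans hP12
    linarith [Real.exp_one_lt_d9]
  have hL : 1 ≤ Real.log X := hlP.trans
    (Real.log_le_log (by exact_mod_cast (by omega : 0 < P2)) (by exact_mod_cast hP2X))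
  obtain ⟨hh1, -, hh2⟩ := hB.2.2.2.1 n hn
  have hh3 : hs n ≤ 1 + Real.log X := hh2.trans (by
    have := Real.log_le_log (show (0 : ℝ) < n by exact_mod_cast (by omega : 0 < n))
      (show (n : ℝ) ≤ X by exact_mod_cast hnX)
    linarith)
  have hly : 0 ≤ (l : ℝ) * Real.log y := mul_nonneg (Nat.cast_nonneg _) (Real.log_nonneg hy1)
  set M := l * Real.log y + Real.log P2 with hM
  set T := E + (1 / rs (Ch.pr P1 P2) + 1 / Q) * Real.log X + M with hT
  have hTM : M ≤ T := by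
    have : 0 ≤ (1 / rs (Ch.pr P1 P2) + 1 / Q) * Real.log X := by positivity
    linarith
  have hTL : 1 / Q * Real.log X ≤ T := by
    have : 0 ≤ 1 / rs (Ch.pr P1 P2) * Real.log X := by positivity
    linarith
  have ht0 : (0 : ℝ) < 1 / Q := by positivity
  have ht1 : (1 : ℝ) / Q ≤ 1 / 2 := one_div_le_one_div_of_le (by norm_num) hQ2
  have hlPm : 0 ≤ Real.log Pm := Real.log_nonneg hPm1'
  have e2 : 1 / Q * (1 + Real.log X + Real.log Pm) + 1 + Real.log ((X : ℝ) / n) ≤ (c + 8) * T := by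
    have a1 : Real.log Pm ≤ Real.log P2 := Real.log_le_log (by linarith) hPmP
    have a2 : 1 / Q * Real.log Pm ≤ 1 / 2 * Real.log Pm := by gcongr
    have a3 : (1 : ℝ) / Q * 1 ≤ 1 / Q * Real.log X := by gcongr
    have a4 : ((c : ℝ) + 4) * M ≤ (c + 4) * T := by gcongr
    linarith
  have e1 : 1 / Q * (1 + Real.log X) + 1 + Real.log ((X : ℝ) / n) ≤ (c + 8) * T := by
    have : 0 ≤ 1 / Q * Real.log Pm := by positivity
    linarith
  have hh0 : 0 < hs n := by linarith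
  -- the families
  choose F F' hFF hFs using fun (R : ℕ) (hR : 0 < R) =>
    hS _ hX f hf X (r0 * 2 ^ g) n R Pm ρ (1 / Q) Ψ Ψ1 hΨ hΨ1 ht0 ht1 hPm1 hR hn hnX
  have hRp : ∀ i, 0 < r0 * 2 ^ rk i := fun i => by positivity
  have key : ∀ i, ∀ q ∈ Bl i, ∀ a ∈ Fintype.piFinset G, _ := fun i q hq a h =>
    hFs _ (hRp i) (q * ∏ k, a k) (Nat.mul_pos (hpr q (hsub i hq)).1.pos (hA0 a h)) ?_ ?_ ?_ ?_
  rotate_left
  · have a1 := (hdy i q hq).2
    rw [pow_succ] at a1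
    calc q * ∏ k, a k ≤ 2 ^ rk i * 2 * ∏ k, a k := Nat.mul_le_mul_right _ a1.le
      _ = 2 * (∏ k, a k) * 2 ^ rk i := by ring
      _ ≤ _ := Nat.mul_le_mul_right _ (hA3 a h)
  · have a1 := (hdy i q hq).2
    rw [pow_succ] at a1
    calc q * ∏ k, a k ≤ 2 ^ rk i * 2 * ∏ k, a k := Nat.mul_le_mul_right _ a1.le
      _ = 2 * (∏ k, a k) * 2 ^ rk i := by ring
      _ ≤ r0 * 2 ^ rk i := Nat.mul_le_mul_right _ (hA3 a h)
      _ ≤ _ := Nat.le_of_dvd hB0 (hdv i)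
  · exact hnB.trans (Nat.le_mul_of_pos_left _ (Nat.mul_pos (hpr q (hsub i hq)).1.pos (hA0 a h)))
  · have a1 : ((2 ^ rk i : ℕ) : ℝ) ≤ q := by exact_mod_cast (hdy i q hq).1
    have a2 : (lo : ℝ) ≤ ((∏ k, a k : ℕ) : ℝ) := by exact_mod_cast (ha a h).1
    rw [Nat.cast_mul, Nat.cast_mul]
    calc (r0 : ℝ) * ((2 ^ rk i : ℕ) : ℝ) ≤ ((∏ k, a k : ℕ) : ℝ) * ρ / Q * q := by
          refine mul_le_mul (h1.trans ?_) a1 (by positivity) (by positivity)
          gcongr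
      _ = _ := by ring
  obtain ⟨a, ha', u, hu, hp⟩ := hC Q y l β m r0 (r0 * 2 ^ g) n P2 G G0 Bl rk s hl hβ
    ((Nat.pow_le_pow_left (Nat.mul_le_mul_right _ (by omega)) _).trans hQ)
    ((Nat.pow_le_pow_right (by omega) (by omega)).trans hy)
    (by
      have : 2 * y ^ 2 ≤ y ^ 3 := by
        rw [pow_succ' y 2]
        exact Nat.mul_le_mul_right _ hy2
      omega)
    hG hG0 hGd hGd0 hGm hG0m hrk hdis
    (fun i q hq => ⟨(hpr q (hsub i hq)).1, (hdy i q hq).1, (hdy i q hq).2, (hpr q (hsub i hq)).2.2⟩)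
    hm (by linarith) hP2
    (fun a h => (Nat.mul_le_mul_left _ (Nat.pow_le_pow_right (by omega) (by omega))).trans (hA1 a h))
    (by
      have a1 : (P2 ^ c) ^ 2 ≤ (y ^ (l - l / 2)) ^ 2 := by
        rw [← pow_mul, ← pow_mul]
        exact (Nat.pow_le_pow_right (by omega) (by omega)).trans
          (hPy.trans (Nat.pow_le_pow_right (by omega) (by omega)))
      have a2 := (Nat.pow_le_pow_iff_left (by norm_num)).1 a1
      calc P2 ^ c * y ^ (l / 2) * y ^ c ≤ y ^ (l - l / 2) * y ^ (l / 2) * y ^ c := by gcongr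
        _ = y ^ l * y ^ c := by rw [← pow_add, Nat.sub_add_cancel (Nat.div_le_self _ _)]
        _ ≤ y * lo * y ^ (c + 2) := Nat.mul_le_mul (hlo.trans (Nat.le_mul_of_pos_left _ (by omega)))
            (Nat.pow_le_pow_right (by omega) (by omega))
        _ ≤ r0 := h0)
    hdv (Nat.mul_le_mul_left _ h2) hn hs0 f
    (fun R => if h : 0 < R then F R h else 0) (fun R => if h : 0 < R then F' R h else 0)
    ((Real.log X - IV.dst X f Ψ1 - cs * ((c + 8) * T)) / hs n)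
    ((3 * E + cs * ((c + 8) * T)) / hs n) hf.1.bd
    (fun R c0 hR => by
      simp only [dif_pos hR]
      exact hFF R hR c0)
    (fun i q hq a h => by
      simp only [dif_pos (hRp i)]
      rw [div_le_iff₀' hh0]
      refine le_trans ?_ (key i q hq a h).1
      have := mul_le_mul_of_nonneg_left e1 hcs.le
      linarith)
    (fun p => (3 * IV.dst X Ψ1 (Up f p Ψ) + cs * ((c + 8) * T)) / hs n)
    (fun k => by
      rw [Mid.Ep_aff (hGp k)]
      have := hEp k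
      gcongr)
    (fun i q hq a h k c0 hc0 => by
      simp only [dif_pos (hRp i)]
      rw [le_div_iff₀' hh0]
      refine ((key i q hq a h).2 c0 (a k) hc0
        ((hG k _ (Fintype.mem_piFinset.1 h k)).2.2.trans hPm)).trans ?_
      have := mul_le_mul_of_nonneg_left e2 hcs.le
      linarith)
  have hd := hD _ hX f hf X (r0 * 2 ^ g) n (r0 * 2 ^ rk 0) (∏ k, a k) P1 (1 / Q) u hu (hA0 a ha')
    (by
      have := hA3 a ha'
      exact le_trans (by omega) (Nat.le_mul_of_pos_right r0 (by positivity)))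
    hn hnX (hnB.trans (Nat.le_mul_of_pos_left _ (hA0 a ha'))) (hρ1.trans hρP) ht0 ht1
    (by
      have a1 : (∏ k, a k) * P1 * Q ≤ r0 * 2 ^ rk 0 :=
        calc (∏ k, a k) * P1 * Q ≤ (∏ k, a k) * (2 * 2 ^ rk 0) * Q := by gcongr
          _ = 2 * (∏ k, a k) * Q * 2 ^ rk 0 := by ring
          _ ≤ _ := Nat.mul_le_mul_right _ (hA2 a ha')
      rw [one_div_mul_eq_div, le_div_iff₀ (by linarith)]
      exact_mod_cast a1)
  refine hd.mono ?_
  have fin := Mid.final (Real.log X) (IV.dst X f Ψ1) E T (rs (Ch.pr P1 P2)) (∑ i, rs (Bl i)) Q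
    (hs n) s _ cs cd (c + 8) C M hL hE (by linarith) hrs hsum (by linarith) hh1 hh3 hs0 hs1 hcs hcd
    (by positivity) hT hC2 hp
  have := mul_le_mul_of_nonneg_left e1 hcd.le
  have e3 : E + (1 / rs (Ch.pr P1 P2) + 1 / Q) * Real.log X + l * Real.log y + Real.log P2 = T := by
    rw [hT, hM]
    ring
  rw [e3]
  linarith

end Pool.Agent.P.MP_a14ce1_nt.Pl
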