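import Pool.Agent.P.MP_a14ce1_nt.Nil.Pl.St

/-! The choice of the parameters in the plain step. -/

open Finset

namespace Pool.Agent.P.MP_a14ce1_nt.Pl

open Ch (rs)
open IV (Hull Gr App Up Ep grp)
open Ax (hull)
open Pool.Agent.P.MP_e30989_nt.W (UCM)

namespace Par

theorem two_pow_mono {a b : ℕ} (h : a ≤ b) : 2 ^ a ≤ 2 ^ b := Nat.pow_le_pow_right two_pos h

theorem lin_le {L : ℕ} (h : 13 ≤ L) : 13 * L ≤ 2 ^ L := by
  obtain ⟨m, rfl⟩ := Nat.exists_eq_add_of_le h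
  have := m.lt_two_pow_self
  rw [pow_add]
  omega

/-- the scale T = 2 ^ L with T ≤ t < 2 T -/
theorem scale {L0 : ℕ} {t : ℝ} (h0 : 13 ≤ L0) (ht : (2 : ℝ) ^ L0 ≤ t) : ∃ L : ℕ, L0 ≤ L ∧
    (2 : ℝ) ^ (2 ^ L) ^ 10 ≤ Real.exp (t ^ 10) ∧ Real.exp (t ^ 12) ≤ 2 ^ (2 ^ L) ^ 13 ∧
    0 < Real.log t ∧ Real.log t ≤ L := by
  have t0 : 0 ≤ t := le_trans (by positivity) ht
  have h1 : 2 ^ L0 ≤ ⌊t⌋₊ := Nat.le_floor (by exact_mod_cast ht)
  have h2 : ⌊t⌋₊ ≠ 0 := by have := Nat.two_pow_pos L0; omega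
  have h3 : L0 ≤ Nat.log 2 ⌊t⌋₊ := Nat.le_log_of_pow_le one_lt_two h1
  have h4 : ((2 ^ Nat.log 2 ⌊t⌋₊ : ℕ) : ℝ) ≤ t :=
    (Nat.cast_le.2 (Nat.pow_log_le_self 2 h2)).trans (Nat.floor_le t0)
  have h5 : t ≤ 2 * ((2 ^ Nat.log 2 ⌊t⌋₊ : ℕ) : ℝ) := by
    have := Nat.lt_pow_succ_log_self one_lt_two ⌊t⌋₊
    have h : ((⌊t⌋₊ + 1 : ℕ) : ℝ) ≤ ((2 ^ (Nat.log 2 ⌊t⌋₊ + 1) : ℕ) : ℝ) := Nat.cast_le.2 this
    push_cast at h ⊢
    rw [pow_succ] at h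
    linarith [Nat.lt_floor_add_one t]
  generalize Nat.log 2 ⌊t⌋₊ = L at h3 h4 h5
  have l2 := Real.log_two_lt_d9
  have l3 := Real.log_two_gt_d9
  have e2 : ∀ n : ℕ, (2 : ℝ) ^ n = Real.exp (n * Real.log 2) := fun n => by
    rw [Real.exp_nat_mul, Real.exp_log two_pos]
  have hT : ((2 ^ 13 : ℕ) : ℝ) ≤ ((2 ^ L : ℕ) : ℝ) := Nat.cast_le.2 (two_pow_mono (h0.trans h3))
  have hL : (13 : ℝ) ≤ L := by exact_mod_cast h0.trans h3
  refine ⟨L, h3, ?_, ?_, Real.log_pos (by norm_num at hT h4 ⊢; linarith), ?_⟩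
  · rw [e2, Real.exp_le_exp, Nat.cast_pow]
    calc _ ≤ ((2 ^ L : ℕ) : ℝ) ^ 10 * 1 := by gcongr; linarith
      _ ≤ _ := by rw [mul_one]; gcongr
  · rw [e2, Real.exp_le_exp, Nat.cast_pow]
    calc t ^ 12 ≤ (2 * ((2 ^ L : ℕ) : ℝ)) ^ 12 := by gcongr
      _ = ((2 ^ L : ℕ) : ℝ) ^ 12 * (2 ^ 13 : ℕ) * (1 / 2) := by push_cast; ring
      _ ≤ ((2 ^ L : ℕ) : ℝ) ^ 12 * (2 ^ L : ℕ) * Real.log 2 := by gcongr; linarith
      _ = _ := by ring
  · have t1 : 0 < t := lt_of_lt_of_le (by positivity) ht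
    refine (Real.log_le_log t1 h5).trans ?_
    rw [Nat.cast_pow, Nat.cast_ofNat, ← pow_succ', Real.log_pow]
    push_cast
    nlinarith

/-- the size conditions between the natural parameters -/
theorem nums {L T C J P y l : ℕ} (hT : T = 2 ^ L) (hL : 13 ≤ L) (hC : C ≤ L) (C0 : 0 < C)
    (J1 : T ^ 6 ≤ J) (J2 : 2 * J ≤ T ^ 6 * T) (hP : P ≤ 2 ^ T ^ 13) (hy : y = 2 ^ (T ^ 2 * J))
    (hyP : y ≤ P) (hl : l = C * Nat.clog y P) :
    1 ≤ l ∧ 2 * (l + 1) ≤ J ∧ (C * (4 * J)) ^ l ≤ 2 ^ T ^ 7 ∧ (2 ^ T ^ 7) ^ C ≤ y ∧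
      T ^ 13 ≤ 2 ^ T ^ 7 ∧ P ^ C ≤ y ^ l ∧ y ^ l ≤ P ^ (2 * C) := by
  have h1 : 13 * L ≤ T := hT ▸ lin_le hL
  have T0 : 0 < T := by omega
  have h8 : T ^ 8 ≤ T ^ 2 * J := by
    calc T ^ 8 = T ^ 2 * T ^ 6 := by ring
      _ ≤ _ := by gcongr
  have y1 : 1 < y := hy ▸ Nat.one_lt_two_pow (by have := pow_pos T0 8; omega)
  have c1 : 0 < Nat.clog y P := Nat.clog_pos y1 (by omega)
  have c2 : Nat.clog y P ≤ T ^ 5 := Nat.clog_le_of_le_pow (hP.trans (by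
    rw [hy, ← pow_mul]
    refine two_pow_mono ?_
    calc T ^ 13 = T ^ 8 * T ^ 5 := by ring
      _ ≤ _ := by gcongr))
  have l1 : 1 ≤ l := hl ▸ Nat.mul_pos C0 c1
  have l2 : 4 * l ≤ T ^ 6 := by
    calc 4 * l = (4 * C) * Nat.clog y P := by rw [hl]; ring
      _ ≤ T * T ^ 5 := by gcongr; omega
      _ = _ := by ring
  have pw : ∀ k ≤ 13, T ^ k ≤ 2 ^ T := fun k hk => by
    calc T ^ k = 2 ^ (k * L) := by rw [hT, ← pow_mul, mul_comm]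
      _ ≤ _ := two_pow_mono (le_trans (by gcongr) h1)
  refine ⟨l1, by omega, ?_, ?_, (pw 13 le_rfl).trans (two_pow_mono (Nat.le_self_pow (by norm_num) T)),
    ?_, ?_⟩
  · have : C * (4 * J) ≤ 2 ^ T := by
      calc C * (4 * J) = (2 * C) * (2 * J) := by ring
        _ ≤ T * (T ^ 6 * T) := by gcongr; omega
        _ = T ^ 8 := by ring
        _ ≤ _ := pw 8 (by norm_num)
    calc _ ≤ (2 ^ T) ^ l := by gcongr
      _ = 2 ^ (T * l) := by rw [← pow_mul]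
      _ ≤ _ := two_pow_mono (by
        calc T * l ≤ T * T ^ 6 := by gcongr; omega
          _ = _ := by ring)
  · rw [hy, ← pow_mul]
    refine two_pow_mono (le_trans ?_ h8)
    calc T ^ 7 * C ≤ T ^ 7 * T := by gcongr; omega
      _ = _ := by ring
  · rw [hl, mul_comm, pow_mul]
    gcongr
    exact Nat.le_pow_clog y1 P
  · rw [hl, mul_comm, pow_mul, pow_mul]
    refine Nat.pow_le_pow_left ?_ C
    have := Nat.pow_pred_clog_lt_self y1 (show 1 < P by omega)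
    calc y ^ Nat.clog y P = y ^ (Nat.clog y P).pred * y := by
          rw [← pow_succ]; congr 1; exact (Nat.succ_pred_eq_of_pos c1).symm
      _ ≤ P * P := by gcongr
      _ = _ := by ring

theorem dst_nonneg (A : Set (ℕ → ℂ)) (f : ℕ → ℂ) (H X : ℕ) : 0 ≤ Ax.dst A f H X :=
  Real.sInf_nonneg (by
    rintro _ ⟨Φ, -, rfl⟩
    exact sum_nonneg fun _ _ => by positivity)

theorem one_add_log {X : ℕ} (hX : 2 ≤ X) : 1 + Real.log X ≤ 3 * Real.log X := by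
  have := Real.log_le_log two_pos (show (2 : ℝ) ≤ X by exact_mod_cast hX)
  linarith [Real.log_two_gt_d9]

theorem dst_le {A : Set (ℕ → ℂ)} (hA : Hull (hull A)) {f : ℕ → ℂ} (hf : UCM f) {H X : ℕ}
    (hH : 0 < H) (hX : 2 ≤ X) : Ax.dst A f H X ≤ 3 * Real.log X := by
  refine IV.App.dst_le hH ⟨0, IV.gr_zero hA _, le_trans (le_of_eq ?_)
    ((IV.harm_le X).trans (one_add_log hX))⟩
  refine sum_congr rfl fun n hn => ?_
  rw [Pi.zero_apply, sub_zero, hf.2 n (by have := (mem_Icc.1 hn).1; omega), one_pow]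

/-- the final bookkeeping -/
theorem book {a b c σ C C1 LX LP d D u1 u2 u3 u4 u5 Lm v w : ℝ} (ha : 0 ≤ a) (hb : 0 ≤ b)
    (hc : 0 ≤ c) (hσ : σ = a + b + c) (σ0 : 0 < σ) (σ1 : σ ≤ 1) (C0 : 0 ≤ C) (C10 : 0 ≤ C1)
    (h1 : 1 + LX ≤ 3 * LX) (h2 : 1 ≤ LP) (h3 : LP = c ^ 2 * LX) (a1 : u1 ≤ a ^ 2)
    (a2 : u2 ≤ a ^ 2) (a3 : u3 ≤ a ^ 2) (a4 : u4 ≤ a ^ 2) (a5 : u5 ≤ a ^ 2) (a6 : Lm ≤ LP)
    (a7 : v = b ^ 2) (a8 : w ≤ 2 * C * LP) (hD : D ≤ d + 1 + C1 * (u1 * (1 + LX) + 1)) :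
    D + C * σ * LX + C / σ * (C1 * ((u2 + u3 + u4) * (1 + LX) + Lm) + (v + u5) * LX + w + LP) ≤
      d + (4 * C1 + 1 + C + C * (10 * C1 + 2 * C + 3)) * σ * LX := by
  have X0 : 0 ≤ LX := by linarith
  have b1 : a ^ 2 ≤ σ ^ 2 := by gcongr; linarith
  have b2 : b ^ 2 ≤ σ ^ 2 := by gcongr; linarith
  have b3 : LP ≤ σ ^ 2 * LX := by rw [h3]; gcongr; linarith
  have b4 : σ ^ 2 * LX ≤ σ * LX := by gcongr; nlinarith
  have b5 : ∀ u k : ℝ, 0 ≤ k → u ≤ k * a ^ 2 → u * (1 + LX) ≤ 3 * k * (σ ^ 2 * LX) :=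
    fun u k hk hu => by
      calc u * (1 + LX) ≤ k * σ ^ 2 * (3 * LX) :=
            mul_le_mul (hu.trans (by gcongr)) h1 (by linarith) (by positivity)
        _ = _ := by ring
  have b6 : C1 * (u1 * (1 + LX) + 1) ≤ C1 * (4 * (σ * LX)) := by
    gcongr; linarith [b5 u1 1 zero_le_one (by linarith)]
  have b7 : C1 * ((u2 + u3 + u4) * (1 + LX) + Lm) ≤ C1 * (10 * (σ ^ 2 * LX)) := by
    gcongr; linarith [b5 (u2 + u3 + u4) 3 (by norm_num) (by linarith)]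
  have b8 : (v + u5) * LX ≤ (2 * σ ^ 2) * LX := by gcongr; linarith
  have b9 : w ≤ 2 * C * (σ ^ 2 * LX) := a8.trans (by gcongr)
  have b10 : C / σ * (C1 * ((u2 + u3 + u4) * (1 + LX) + Lm) + (v + u5) * LX + w + LP) ≤
      C / σ * ((10 * C1 + 2 * C + 3) * (σ ^ 2 * LX)) := by gcongr; linarith
  have b11 : C / σ * ((10 * C1 + 2 * C + 3) * (σ ^ 2 * LX)) =
      C * (10 * C1 + 2 * C + 3) * σ * LX := by field_simp
  linarith

end Par

open Par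

theorem plain (h1 : IV.S_Sec1) (hH : IV.S_Hull) (hM : S_Mid) : Ax.S_Plain := by
  intro A hA
  obtain ⟨C1, s0, C10, h1⟩ := h1
  obtain ⟨C, C0, hM⟩ := hM A hA
  have hX := hH A hA.atm
  refine ⟨(4 * C1 + 1 + C + C * (10 * C1 + 2 * C + 3)) + 3 * (C * (2 * C + 1)) + 3,
    2 ^ (13 + C + s0), by positivity, fun t ht f H P1 P2 X hf a1 a2 a3 a4 a5 a6 => ?_⟩
  obtain ⟨L, L1, b1, b2, b3, b4⟩ := scale (by omega) ht
  obtain ⟨T, hT⟩ : ∃ T, T = 2 ^ L := ⟨_, rfl⟩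
  rw [← hT] at b1 b2
  have T1 : 13 * L ≤ T := hT ▸ lin_le (by omega)
  have T0 : 0 < T := by omega
  have c1 : 2 ^ T ^ 10 ≤ H := by exact_mod_cast b1.trans a1
  have c2 : P2 ≤ 2 ^ T ^ 13 := by exact_mod_cast a4.trans b2
  have H0 : 0 < H := (Nat.two_pow_pos _).trans_le c1
  have X1 := one_add_log a6
  have X0 : 0 < Real.log X := by linarith
  have P0 : (0 : ℝ) < P2 := by exact_mod_cast (by omega : 0 < P2)
  have LP : 1 ≤ Real.log P2 := by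
    rw [Real.le_log_iff_exp_le P0]
    refine le_trans (Real.exp_le_exp.2 (one_le_pow₀ (le_trans (one_le_pow₀ one_le_two) ht)))
      (a1.trans (by exact_mod_cast a2.trans a3))
  have d0 := dst_nonneg A f H X
  have d1 := dst_le hX hf (H0.trans_le a2) a6
  obtain ⟨a, ha⟩ : ∃ a, a = 1 / √(√(Real.log t)) := ⟨_, rfl⟩
  obtain ⟨b, hb⟩ : ∃ b, b = 1 / √(rs (Ch.pr P1 P2)) := ⟨_, rfl⟩
  obtain ⟨c, hc⟩ : ∃ c, c = √(Real.log P2 / Real.log X) := ⟨_, rfl⟩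
  obtain ⟨σ, hσ⟩ : ∃ σ, σ = a + b + c := ⟨_, rfl⟩
  rw [← ha, ← hb, ← hc, ← hσ]
  have a0 : 0 < a := by rw [ha]; positivity
  have b0 : 0 ≤ b := by rw [hb]; positivity
  have c0 : 0 ≤ c := by rw [hc]; positivity
  have σ0 : 0 < σ := by linarith
  have σX : 0 < σ * Real.log X := mul_pos σ0 X0
  have k1 : 0 ≤ (4 * C1 + 1 + C + C * (10 * C1 + 2 * C + 3)) * (σ * Real.log X) := by positivity
  have k2 : 0 ≤ (C : ℝ) * (2 * C + 1) * (σ * Real.log X) := by positivity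
  rcases le_total 1 σ with σ1 | σ1
  · nlinarith
  have e1 : Real.log P2 = c ^ 2 * Real.log X := by
    rw [hc, Real.sq_sqrt (by positivity), div_mul_cancel₀ _ X0.ne']
  have L0 : (1 : ℝ) ≤ L := by exact_mod_cast (by omega : 1 ≤ L)
  have e2 : 1 / √(L : ℝ) ≤ a ^ 2 := by
    rw [ha, div_pow, one_pow, Real.sq_sqrt (Real.sqrt_nonneg _)]
    gcongr
  have e3 : ∀ n : ℕ, L ≤ n → 1 / (n : ℝ) ≤ a ^ 2 := fun n hn => le_trans (by
    gcongr
    exact (Real.sqrt_le_self_iff.2 (Or.inr L0)).trans (by exact_mod_cast hn)) e2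
  obtain ⟨Pm, hPm⟩ : ∃ Pm, Pm = 2 ^ (T ^ 2 * T ^ 6 * 2 ^ L) := ⟨_, rfl⟩
  have m1 : Pm ^ (2 * L) * Pm ^ (2 * L) ≤ H := by
    rw [hPm, ← pow_add, ← pow_mul, ← hT]
    refine (two_pow_mono ?_).trans c1
    calc _ = T ^ 9 * (4 * L) := by ring
      _ ≤ T ^ 9 * T := by gcongr; omega
      _ = _ := by ring
  have m0 : 0 < Pm := hPm ▸ Nat.two_pow_pos _
  have m2 : Pm ^ (2 * L) ≤ H := (Nat.le_mul_self _).trans m1
  have m3 : Pm ≤ P2 := (Nat.le_self_pow (by omega) _).trans (m2.trans (a2.trans a3))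
  have m4 : L * L ≤ Pm := by
    rw [hPm, ← hT]
    refine le_trans ?_ Nat.lt_two_pow_self.le
    calc L * L ≤ T * T := by gcongr <;> omega
      _ = T ^ 2 * 1 * 1 := by ring
      _ ≤ _ := by gcongr; exacts [Nat.one_le_pow _ _ T0, T0]
  obtain ⟨ρ, Ψ, Ψ1, J, r1, r2, r3, r4, r5, r6, r7, r8⟩ := h1 _ hX f hf (T ^ 2) (T ^ 6) L L X Pm H
    (Ax.dst A f H X + 1) (le_trans (by omega) (Nat.le_self_pow two_ne_zero T))
    (Nat.one_le_pow _ _ T0) (Nat.one_le_pow _ _ T0) (by omega) (by omega)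
    (by rw [hPm]; push_cast; rfl) (by exact_mod_cast m2) (IV.app_of_lt hX H0 (lt_add_one _))
  obtain ⟨y, hy⟩ : ∃ y, y = 2 ^ (T ^ 2 * J) := ⟨_, rfl⟩
  have y2 : y ^ 2 = 2 ^ (T ^ 2 * (2 * J)) := by rw [hy, ← pow_mul]; congr 1; ring
  have y3 : y ^ 2 ≤ Pm := by
    rw [y2, hPm, mul_assoc]
    exact two_pow_mono (by gcongr)
  have y4 : y ≤ Pm := (Nat.le_self_pow two_ne_zero _).trans y3
  have y0 : 0 < y := hy ▸ Nat.two_pow_pos _
  obtain ⟨l, hl⟩ : ∃ l, l = C * Nat.clog y P2 := ⟨_, rfl⟩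
  obtain ⟨n1, n2, n3, n4, n5, n6, n7⟩ := nums hT (by omega) (by omega) C0 r6 (hT ▸ r7) c2 hy
    (y4.trans m3) hl
  have n8 : l * Real.log y ≤ 2 * C * Real.log P2 := by
    have := Real.log_le_log (by positivity) (show (y : ℝ) ^ l ≤ (P2 : ℝ) ^ (2 * C) by
      exact_mod_cast n7)
    rwa [Real.log_pow, Real.log_pow, Nat.cast_mul, Nat.cast_ofNat] at this
  rcases le_total X ((y ^ l * P2) ^ C) with hx | hx
  · have := Real.log_le_log (by exact_mod_cast (by omega : 0 < X))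
      (show (X : ℝ) ≤ ((y : ℝ) ^ l * P2) ^ C by exact_mod_cast hx)
    rw [Real.log_pow, Real.log_mul (by positivity) P0.ne', Real.log_pow] at this
    have g1 : Real.log P2 ≤ σ * Real.log X := by
      rw [e1]
      gcongr
      nlinarith
    have g2 : (C : ℝ) * (l * Real.log y + Real.log P2) ≤ C * ((2 * C + 1) * (σ * Real.log X)) := by
      gcongr
      nlinarith [(Nat.cast_nonneg C : (0 : ℝ) ≤ C)]
    nlinarith
  obtain ⟨g, g1, g2⟩ := r8 (l + 1) n2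
  have gp : ∀ k, ∀ p ∈ grp (T ^ 2) (g k), p.Prime ∧ y < p ∧ p ≤ y ^ 2 := fun k p hp => by
    obtain ⟨p1, p2, p3⟩ := V.mem_PP.1 hp
    refine ⟨p1, lt_of_le_of_lt (hy ▸ two_pow_mono ?_) p2, p3.trans (y2 ▸ two_pow_mono ?_)⟩
    · gcongr; exact (g2 k).1
    · gcongr; exact (g2 k).2.1
  have gb : ∀ k, 1 ≤ ((4 * J : ℕ) : ℝ) * rs (grp (T ^ 2) (g k)) := fun k => by
    push_cast; exact (g2 k).2.2.1
  have Pm1 : (1 : ℝ) ≤ Pm := by exact_mod_cast m0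
  have key := hM f (2 ^ T ^ 7) y l (4 * J) (∏ k : Fin l, 2 ^ (T ^ 2 * g k.castSucc)) Pm P1 P2 X ρ
    _ σ Ψ Ψ1 (fun k => grp (T ^ 2) (g k.castSucc)) (grp (T ^ 2) (g (Fin.last l))) hf r3 r4 n1
    (by omega) n3 n4 y3
    (by
      have i1 : (y : ℝ) ^ C ≤ (Pm : ℝ) ^ (2 * L) :=
        le_trans (by gcongr) (pow_le_pow_right₀ Pm1 (by omega))
      refine i1.trans (le_of_mul_le_mul_right (le_trans ?_ r1) (by positivity))
      exact_mod_cast m1)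
    (r2.trans (by exact_mod_cast a2)) a3
    (by
      refine (Real.log_le_log P0 (show (P2 : ℝ) ≤ 2 ^ T ^ 13 by exact_mod_cast c2)).trans ?_
      rw [Real.log_pow]
      refine (mul_le_of_le_one_right (Nat.cast_nonneg _) ?_).trans (by exact_mod_cast n5)
      linarith [Real.log_two_lt_d9])
    n6 hx (fun k => gp _) (gp _)
    (fun k k' h => IV.grp_disjoint _ fun e => h (Fin.castSucc_injective _ (g1 e)))
    (fun k => IV.grp_disjoint _ fun e => (Fin.castSucc_lt_last k).ne (g1 e))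
    (fun k => gb _) (gb _)
    (by
      rw [← Fin.prod_const]
      exact prod_le_prod' fun k _ => hy ▸ two_pow_mono (by gcongr; exact (g2 _).1))
    (fun u hu => by
      have hu := fun k => V.mem_PP.1 (Fintype.mem_piFinset.1 hu k)
      refine ⟨prod_le_prod' fun k _ => (hu k).2.1.le,
        (prod_le_prod' fun k _ => (hu k).2.2).trans ?_⟩
      simp only [mul_add, mul_one, pow_add, prod_mul_distrib, Fin.prod_const, ← pow_mul]
      rw [mul_comm]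
      gcongr
      exact hy ▸ two_pow_mono (by gcongr; omega))
    (by have := Real.log_nonneg Pm1; positivity) (fun k => (g2 _).2.2.2) a5 σ0 σ1
  have fin := book (C := C) a0.le b0 c0 hσ σ0 σ1 (Nat.cast_nonneg C) C10.le X1 LP e1
    (u1 := L / Pm) (le_trans (by
      rw [div_le_div_iff₀ (by positivity) (by positivity), one_mul]
      exact_mod_cast m4) (e3 L le_rfl))
    (e3 L le_rfl) e2 (e3 Pm ((Nat.le_mul_self L).trans m4))
    (e3 (2 ^ T ^ 7) (le_trans (by omega)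
      ((Nat.le_self_pow (by norm_num) T).trans Nat.lt_two_pow_self.le)))
    (Real.log_le_log (by positivity) (show (Pm : ℝ) ≤ P2 by exact_mod_cast m3))
    (v := 1 / rs (Ch.pr P1 P2))
    (by rw [hb, div_pow, one_pow, Real.sq_sqrt (by linarith)]) n8 r5
  have := (IV.App.dst_le (H0.trans_le a2) key).trans fin
  nlinarith

end Pool.Agent.P.MP_a14ce1_nt.Pl
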