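import Pool.Agent.P.MP_a14ce1_nt.Nil.Pl.Basic
import Pool.Agent.P.MP_a14ce1_nt.Nil.Pl.Trans
import Pool.Agent.P.MP_a14ce1_nt.Nil.Pl.Setup
import Pool.Agent.P.MP_a14ce1_nt.Nil.Pl.FsI
import Pool.Agent.P.MP_a14ce1_nt.Nil.Pl.ExtI
import Pool.Agent.P.MP_a14ce1_nt.Nil.Pl.FsC
import Pool.Agent.P.MP_a14ce1_nt.Nil.Pl.Conc
import Pool.Agent.P.MP_a14ce1_nt.Nil.Pl.Mid
import Pool.Agent.P.MP_a14ce1_nt.Nil.Pl.Par
import Pool.Agent.P.MP_a14ce1_nt.Nil.Core4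
import Pool.Agent.P.MP_a14ce1_nt.IV.Grid
import Pool.Agent.P.MP_a14ce1_nt.IV.TKlog
import Pool.Agent.P.MP_a14ce1_nt.IV.Pig
import Pool.Agent.P.MP_a14ce1_nt.IV.Sel
import Pool.Agent.P.MP_a14ce1_nt.Ch.TK
import Pool.Agent.P.MP_a14ce1_nt.Ch.Mertens

/-! Assembly of the plain step. -/

namespace Pool.Agent.P.MP_a14ce1_nt.Pl

theorem sec1_all : IV.S_Sec1 :=
  IV.sec1 (IV.pig (IV.regrid IV.bad) (IV.tklog Ch.tk)) (IV.sel (IV.grpM Ch.m2))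

theorem conc_all : S_Conc :=
  conc Nil.ES.core basic (fsExt cells fsI extI) (fsC cells) IV.hull

theorem mid_all : S_Mid :=
  mid basic (setup (IV.regrid IV.bad) basic trans) (down (IV.regrid IV.bad) trans) blocks conc_all
    IV.hull

theorem plain_all : Ax.S_Plain := plain sec1_all IV.hull mid_all

end Pool.Agent.P.MP_a14ce1_nt.Pl
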