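import Pool.Agent.P.MP_a14ce1_nt.Nil.Pl.St

/-!
Closure properties of the piecewise classes, masses of the block weight, cutting into cells.
-/

open Finset

namespace Pool.Agent.P.MP_a14ce1_nt.Pl

open Nil.ES (Wt Pr br mass pot)
open IV (Hull Gr cell)
open Ax (sv pc)

namespace Basic

theorem mem_cell_nat {H : ℕ} (hH : 0 < H) {j n : ℕ} : n ∈ cell H j ↔ n / H = j := by
  rw [IV.mem_cell_floor (by exact_mod_cast hH), Nat.floor_div_eq_div]

theorem sum_blocks {M : Type*} [AddCommMonoid M] (g : ℕ → M) (R : ℕ) {a b : ℕ} (h : a ≤ b) :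
    ∑ N ∈ Ico (a * R) (b * R), g N = ∑ j ∈ Ico a b, ∑ N ∈ Ico (j * R) ((j + 1) * R), g N := by
  induction b, h using Nat.le_induction with
  | base => simp
  | succ b h ih =>
    rw [sum_Ico_succ_top h, ← ih, sum_Ico_consecutive _ (Nat.mul_le_mul_right R h)
      (Nat.mul_le_mul_right R (Nat.le_succ b))]

theorem div_of_mem {R j N : ℕ} (h : N ∈ Ico (j * R) ((j + 1) * R)) : N / R = j :=
  Nat.div_eq_of_lt_le (mem_Ico.1 h).1 (mem_Ico.1 h).2

theorem hs_bd {n : ℕ} (h : 2 ≤ n) : 1 ≤ hs n ∧ Real.log n ≤ hs n ∧ hs n ≤ 1 + Real.log n := by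
  obtain ⟨m, rfl⟩ : ∃ m, n = m + 1 := ⟨n - 1, by omega⟩
  have e : hs (m + 1) = ∑ j ∈ Icc 1 m, (1 : ℝ) / j := rfl
  refine ⟨?_, ?_, ?_⟩
  · have := single_le_sum (f := fun j : ℕ => (1 : ℝ) / j) (s := Ico 1 (m + 1))
      (fun _ _ => by positivity) (a := 1) (mem_Ico.2 ⟨le_rfl, by omega⟩)
    simpa [hs] using this
  · have := log_add_one_le_harmonic m
    rw [harmonic_eq_sum_Icc] at this
    rw [e]
    simpa using this
  · rw [e]
    refine (IV.harm_le m).trans (add_le_add le_rfl (Real.log_le_log ?_ ?_))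
    · exact_mod_cast (show 0 < m by omega)
    · exact_mod_cast Nat.le_succ m

theorem sum_wt {M : Type*} [AddCommMonoid M] (g : ℕ → M) (B : ℕ) {n : ℕ} (h : 2 ≤ n) :
    ∑ N ∈ (wt B n).s, g N = ∑ j ∈ Ico 1 n, ∑ N ∈ Ico (j * B) ((j + 1) * B), g N := by
  rw [← sum_blocks g B (show 1 ≤ n by omega), one_mul]
  rfl

theorem sum_inv {n : ℕ} (h : 2 ≤ n) : ∑ j ∈ Ico 1 n, 1 / ((j : ℝ) * hs n) = 1 := by
  have h0 : hs n ≠ 0 := (one_pos.trans_le (hs_bd h).1).ne'
  simp only [← div_div]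
  rw [← sum_div]
  exact div_self h0

theorem total {B n : ℕ} (hB : 0 < B) (h : 2 ≤ n) : ∑ N ∈ (wt B n).s, (wt B n).w N = 1 := by
  have B0 : (B : ℝ) ≠ 0 := by exact_mod_cast hB.ne'
  rw [sum_wt _ B h, ← sum_inv h]
  refine sum_congr rfl fun j _ => ?_
  rw [sum_congr rfl fun N hN => show (wt B n).w N = 1 / ((j : ℝ) * B * hs n) by
    rw [← div_of_mem hN]; rfl, sum_const, Nat.card_Ico, add_mul, one_mul, add_tsub_cancel_left,
    nsmul_eq_mul, mul_right_comm, mul_one_div, mul_comm _ (B : ℝ), ← div_div, div_self B0]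

theorem card_mult {B c : ℕ} (hB : 0 < B) (hc : 0 < c) (j : ℕ) :
    (#{N ∈ Ico (j * B) ((j + 1) * B) | c ∣ N} : ℝ) ≤ B / c + 1 := by
  refine le_trans (Nat.cast_le.2 (card_le_card_of_injOn (fun N => N / c) (fun N hN => ?_)
    fun N hN N' hN' e => ?_)) (IV.card_cell_le (by positivity) j)
  · obtain ⟨h1, h2⟩ := mem_filter.1 hN
    rw [mem_coe, IV.mem_cell_div hc, Nat.mul_div_cancel' h2, mem_cell_nat hB]
    exact div_of_mem h1
  · rw [← Nat.mul_div_cancel' (mem_filter.1 hN).2, ← Nat.mul_div_cancel' (mem_filter.1 hN').2]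
    exact congrArg _ e

theorem mass_le {B n c : ℕ} (hc : 0 < c) (hB : c ≤ B) (h : 2 ≤ n) : mass (wt B n) c ≤ 2 := by
  have c0 : (0 : ℝ) < c := by exact_mod_cast hc
  have cB : (c : ℝ) ≤ B := by exact_mod_cast hB
  have B0 := c0.trans_le cB
  have h0 := one_pos.trans_le (hs_bd h).1
  rw [mass, sum_filter, sum_wt _ B h, ← mul_one (2 : ℝ), ← sum_inv h, mul_sum]
  refine sum_le_sum fun j hj => ?_
  have j0 : (0 : ℝ) < j := by exact_mod_cast (mem_Ico.1 hj).1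
  rw [← sum_filter, sum_congr rfl fun N hN =>
    show (c : ℝ) * (wt B n).w N = c * (1 / ((j : ℝ) * B * hs n)) by
      rw [← div_of_mem (mem_filter.1 hN).1]; rfl, sum_const, nsmul_eq_mul]
  refine (mul_le_mul_of_nonneg_right (card_mult (hc.trans_le hB) hc j) (by positivity)).trans ?_
  rw [show ((B : ℝ) / c + 1) * (c * (1 / (j * B * hs n))) = (1 + c / B) * (1 / (j * hs n)) by
    field_simp]
  have := (div_le_one B0).2 cB
  gcongr
  linarith

end Basic

open Basic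

theorem basic : S_Basic := by
  refine ⟨fun XX h R hR => ⟨fun x hx y hy a b ha hb hab j => ?_, IV.gr_zero h _, fun φ hφ j => ?_,
    fun φ hφ => IV.Gr.bd h (by exact_mod_cast hR) hφ⟩, fun XX R R' h0 hd Ψ hΨ j => ?_,
    fun XX h ρ c Φ hρ hc hΦ => ?_, fun n => hs_bd, fun B n c => mass_le⟩
  · obtain ⟨u, hu, h1⟩ := hx j
    obtain ⟨v, hv, h2⟩ := hy j
    exact ⟨_, h.cvx hu hv ha hb hab, fun n hn => by simp [h1 n hn, h2 n hn]⟩
  · obtain ⟨u, hu, h1⟩ := hφ j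
    exact ⟨_, h.sc u hu (-1) (by simp), fun n hn => by simp [h1 n hn]⟩
  · obtain ⟨k, rfl⟩ := hd
    obtain ⟨u, hu, h1⟩ := hΨ (j / k)
    refine ⟨u, hu, fun n hn => h1 n ((mem_cell_nat h0).2 ?_)⟩
    rw [← Nat.div_div_eq_div_mul, (mem_cell_nat (Nat.pos_of_mul_pos_right h0)).1 hn]
  · choose u hu h1 using hΦ
    choose v hv h2 using fun j => h.und (u j) (hu j) c hc
    refine ⟨fun N => v ⌊(N : ℝ) / ρ⌋₊ N, fun j => ⟨v j, hv j, fun N hN => ?_⟩, fun m => ?_⟩
    · simp only [(IV.mem_cell_floor hρ).1 hN]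
    · exact (h2 _ m).trans
        (h1 _ m ((IV.mem_cell_div hc).2 ((IV.mem_cell_floor hρ).2 rfl))).symm

theorem cells : S_Cells := by
  intro B n R hB hd h
  obtain ⟨k, rfl⟩ := hd
  have e : ∀ g : ℕ → ℝ, ∑ N ∈ (wt (R * k) n).s, g N =
      ∑ j ∈ Ico k (n * k), ∑ N ∈ Ico (j * R) ((j + 1) * R), g N := fun g => by
    rw [← sum_blocks g R (Nat.le_mul_of_pos_left k (by omega)), mul_comm k R, mul_assoc,
      mul_comm k R]
    rfl
  have w : ∀ j, ∀ N ∈ Ico (j * R) ((j + 1) * R), (wt (R * k) n).w N = (wt (R * k) n).w (j * R) :=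
    fun j N hN => by
      change 1 / (((N / (R * k) : ℕ) : ℝ) * _ * _) = 1 / (((j * R / (R * k) : ℕ) : ℝ) * _ * _)
      rw [← Nat.div_div_eq_div_mul, ← Nat.div_div_eq_div_mul, div_of_mem hN,
        Nat.mul_div_cancel _ (Nat.pos_of_mul_pos_right hB)]
  refine ⟨Ico k (n * k), fun j => (wt (R * k) n).w (j * R), fun j => (wt _ n).nn _, ?_,
    fun c φ ψ => ?_⟩
  · rw [← total hB h, e]
    refine sum_congr rfl fun j _ => ?_
    rw [sum_congr rfl (w j), sum_const, Nat.card_Ico, add_mul, one_mul, add_tsub_cancel_left,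
      nsmul_eq_mul, mul_comm]
  · rw [Nil.ES.br_eq, sum_filter, e, mul_sum]
    refine sum_congr rfl fun j _ => ?_
    rw [← sum_filter, sv, ← Complex.ofReal_natCast, Complex.re_ofReal_mul, Complex.re_sum,
      mul_left_comm, mul_sum _ _ ((wt (R * k) n).w (j * R))]
    congr 1
    exact sum_congr rfl fun N hN => by rw [w j N (mem_filter.1 hN).1]; rfl

end Pool.Agent.P.MP_a14ce1_nt.Pl
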