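import Pool.Agent.P.MP_a14ce1_nt.Nil.CoreSt
import Pool.Agent.P.MP_a14ce1_nt.IV.St

/-!
The plain step of the lifting argument: the block weight, the piecewise classes and the statements
of the pieces. Every piece is a theorem of the shape  S_a → S_b → S_c.
-/

open Finset

namespace Pool.Agent.P.MP_a14ce1_nt.Pl

open Ch (rs)
open Nil.ES (Wt Pr br mass pot FsN ExtN FsC)
open IV (Hull Gr App Up Ep)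
open Ax (At PW hull sv pc)
open Pool.Agent.P.MP_e30989_nt.W (UCM)

/-- harmonic sum below n -/
noncomputable def hs (n : ℕ) : ℝ := ∑ j ∈ Ico 1 n, (1 : ℝ) / j

theorem hs_nonneg (n : ℕ) : 0 ≤ hs n := sum_nonneg fun _ _ => by positivity

/-- the probability weight that is uniform on each block [j B, (j + 1) B), 1 ≤ j < n, with mass
proportional to 1 / j -/
noncomputable def wt (B n : ℕ) : Wt ℕ :=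
  ⟨Ico B (n * B), fun N => 1 / (((N / B : ℕ) : ℝ) * B * hs n), fun _ => by
    have := hs_nonneg n
    positivity⟩

/-- the group with weights proportional to 1 / p -/
noncomputable def prOf (P : Finset ℕ) (h : 0 < rs P) : Pr where
  s := P
  w := fun p => 1 / (p * rs P)
  nn := fun _ => by positivity
  one := by
    have : ∀ p ∈ P, (1 : ℝ) / (p * rs P) = 1 / p * (rs P)⁻¹ := fun p _ => by
      rw [one_div, mul_inv, one_div]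
    rw [sum_congr rfl this, ← sum_mul]
    exact mul_inv_cancel₀ h.ne'

/-- the functions that are structured on the grid of length R -/
def GX (XX : Set (ℕ → ℂ)) (R : ℕ) : Set (ℕ → ℂ) := {Ψ | Gr XX R Ψ}

/-- closure properties, masses, harmonic sums -/
def S_Basic : Prop :=
  (∀ XX, Hull XX → ∀ R : ℕ, 0 < R → Nil.ES.Cl (GX XX R)) ∧
  (∀ XX (R R' : ℕ), 0 < R' → R ∣ R' → GX XX R' ⊆ GX XX R) ∧
  (∀ XX, Hull XX → ∀ (ρ : ℝ) (c : ℕ) (Φ : ℕ → ℂ), 0 < ρ → 0 < c → Gr XX (ρ / c) Φ →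
    ∃ F, Gr XX ρ F ∧ ∀ m, F (c * m) = Φ m) ∧
  (∀ n : ℕ, 2 ≤ n → 1 ≤ hs n ∧ Real.log n ≤ hs n ∧ hs n ≤ 1 + Real.log n) ∧
  ∀ B n c : ℕ, 0 < c → c ≤ B → 2 ≤ n → mass (wt B n) c ≤ 2

/-- a sum against the block weight, cut into the cells of a grid R that divides B -/
def S_Cells : Prop := ∀ (B n R : ℕ), 0 < B → R ∣ B → 2 ≤ n → ∃ (J : Finset ℕ) (ω : ℕ → ℝ),
  (∀ j, 0 ≤ ω j) ∧ ∑ j ∈ J, ω j * R = 1 ∧ ∀ (c : ℕ) (φ ψ : ℕ → ℂ),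
    br (wt B n) c φ ψ = ∑ j ∈ J, ω j * (sv c (j * R) ((j + 1) * R) (pc φ ψ)).re

/-- transfer between the level c of the block weight and the logarithmic sum -/
def S_Trans : Prop := ∀ (B n c X : ℕ) (φ : ℕ → ℝ) (K : ℝ), 0 < c → c ≤ B → 2 ≤ n →
  n * B ≤ c * X → (∀ m, |φ m| ≤ K) →
  |hs n * (c * ∑ N ∈ (wt B n).s.filter (fun N => c ∣ N), (wt B n).w N * φ (N / c)) -
    ∑ m ∈ Icc 1 X, φ m / m| ≤ K * (6 + Real.log ((X : ℝ) / n))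

/-- the families on all levels -/
def S_Setup : Prop := ∃ C : ℝ, 0 < C ∧ ∀ XX, Hull XX → ∀ f, UCM f →
  ∀ (X B n R Pm : ℕ) (ρ t : ℝ) (Ψ Ψ1 : ℕ → ℂ), Gr XX (ρ * (Pm : ℝ) ^ 2) Ψ → Gr XX ρ Ψ1 →
    0 < t → t ≤ 1 / 2 → 1 ≤ Pm → 0 < R → 2 ≤ n → n ≤ X →
    ∃ F G : ℕ → ℕ → ℂ, (∀ c, F c ∈ GX XX R ∧ G c ∈ GX XX R) ∧
      ∀ c : ℕ, 0 < c → c ≤ R → c ≤ B → n * B ≤ c * X → (R : ℝ) ≤ t * c * ρ →
        Real.log X - IV.dst X f Ψ1 - C * (t * (1 + Real.log X) + 1 + Real.log ((X : ℝ) / n)) ≤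
          hs n * pot (wt B n) c f (F c) ∧
        ∀ c0 p : ℕ, c = c0 * p → p ≤ Pm →
          hs n * br (wt B n) c (F c - G c0) (F c - G c0) ≤ 3 * IV.dst X Ψ1 (Up f p Ψ) +
            C * (t * (1 + Real.log X + Real.log Pm) + 1 + Real.log ((X : ℝ) / n))

/-- back from the level a to the logarithmic distance -/
def S_Down : Prop := ∃ C : ℝ, 0 < C ∧ ∀ XX, Hull XX → ∀ f, UCM f →
  ∀ (X B n R a : ℕ) (H t : ℝ) (u : ℕ → ℂ), u ∈ GX XX R → 0 < a → a ≤ B → 2 ≤ n → n ≤ X →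
    n * B ≤ a * X → 1 ≤ H → 0 < t → t ≤ 1 / 2 → a * H ≤ t * R →
    App XX f X H (Real.log X - hs n * pot (wt B n) a f u +
      C * (t * (1 + Real.log X) + 1 + Real.log ((X : ℝ) / n)))

/-- fair sampling on one window of the level c, for the hull -/
def S_FsI : Prop := ∀ A : Set (ℕ → ℂ), At A → Ax.FS A → ∃ C : ℕ, ∀ Q : ℝ, 2 ≤ Q →
  ∀ (γ : Pr) (s R c : ℕ), PW Q C γ.s γ.w → 0 < c →
    (∀ p ∈ γ.s, ((c * p : ℕ) : ℝ) * Q ^ C ≤ R) → ∀ u ∈ hull A, ∀ v ∈ hull A,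
    |γ.E (fun p => (sv (c * p) s (s + R) (pc u v)).re) - (sv c s (s + R) (pc u v)).re| ≤ R / Q

/-- extension on one window of the level c, for the hull -/
def S_ExtI : Prop := ∀ A : Set (ℕ → ℂ), At A → Ax.EXT A → ∃ C : ℕ, ∀ Q : ℝ, 2 ≤ Q →
  ∀ (γ γ' : Pr) (s R c : ℕ), PW Q C γ.s γ.w → PW Q C γ'.s γ'.w → Disjoint γ.s γ'.s → 0 < c →
    (∀ p ∈ γ.s, ∀ v ∈ γ'.s, ((c * p * v ^ C : ℕ) : ℝ) * Q ^ C ≤ R) →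
    ∀ χ ψ : ℕ → ℕ → ℂ, (∀ p, χ p ∈ hull A) → (∀ v, ψ v ∈ hull A) → ∃ U ∈ hull A,
      γ'.E (fun v => γ.E fun p => (sv (c * p * v) s (s + R) (pc (ψ v) (χ p))).re) ≤
        γ'.E (fun v => (sv (c * v) s (s + R) (pc (ψ v) U)).re) + R / Q

/-- fair sampling and extension for the piecewise class -/
def S_FsExt : Prop := ∀ A : Set (ℕ → ℂ), Ax.Sys A → ∃ C : ℕ, 1 ≤ C ∧ ∀ Q : ℝ, 2 ≤ Q →
  ∀ (γ : Pr) (B n R c : ℕ), PW Q C γ.s γ.w → 0 < B → R ∣ B → 2 ≤ n → 0 < c →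
    ((∀ p ∈ γ.s, ((c * p : ℕ) : ℝ) * Q ^ C ≤ R) →
      FsN (wt B n) (GX (hull A) R) c γ (1 / Q)) ∧
    ∀ γ' : Pr, PW Q C γ'.s γ'.w → Disjoint γ.s γ'.s →
      (∀ p ∈ γ.s, ∀ v ∈ γ'.s, ((c * p * v ^ C : ℕ) : ℝ) * Q ^ C ≤ R) →
      ExtN (wt B n) (GX (hull A) R) c γ γ' (1 / Q)

/-- removal of a whole sub-cube, on average over the positions -/
def S_FsC : Prop := ∀ A : Set (ℕ → ℂ), At A → Ax.CONV A → ∃ C : ℕ, ∀ Q : ℝ, 2 ≤ Q →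
  ∀ (ι : Type) [Fintype ι] [DecidableEq ι] (g : ι → Pr) (D : Finset ι) (β : ℝ) (B n R c Z : ℕ),
    (∀ k ∈ D, PW Q C (g k).s (g k).w) → (∀ k ∈ D, ∀ k' ∈ D, k ≠ k' → Disjoint (g k).s (g k').s) →
    1 ≤ β → (∀ k ∈ D, ∀ p ∈ (g k).s, (g k).w p * p ≤ β ∧ p ≤ Z) → (2 * β) ^ D.card ≤ Q →
    0 < B → R ∣ B → 2 ≤ n → 0 < c → (c : ℝ) * Q ^ C ≤ R →
    (c : ℝ) * ((Z : ℝ) ^ D.card * Q) ^ C ≤ B →
    FsC (wt B n) (GX (hull A) R) c g D (1 / Q)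

/-- the dyadic blocks that are not too light -/
def S_Blocks : Prop := ∀ (P : Finset ℕ) (Z : ℕ) (Q : ℝ), 2 ≤ Q → (∀ p ∈ P, 1 ≤ p ∧ p ≤ Z) →
  Real.log Z ≤ Q → 2 ≤ rs P → ∃ (m : ℕ) (B : Fin (m + 1) → Finset ℕ) (rk : Fin (m + 1) → ℕ),
    Monotone rk ∧ (∀ i, B i ⊆ P) ∧ (∀ i i', i ≠ i' → Disjoint (B i) (B i')) ∧
    (∀ i, ∀ q ∈ B i, 2 ^ rk i ≤ q ∧ q < 2 ^ (rk i + 1)) ∧
    (∀ i, 1 / Q ^ 2 ≤ rs (B i) ∧ rs (B i) ≤ 1) ∧ rs P - 1 ≤ ∑ i, rs (B i)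

/-- The core on the concrete weight and classes: the output of S_Core, with all the hypotheses on
sampling and extension replaced by size conditions. -/
def S_Conc : Prop := ∀ A : Set (ℕ → ℂ), Ax.Sys A → ∃ C : ℕ, 0 < C ∧
  ∀ (Q y l β m r0 B n Z : ℕ) (G : Fin l → Finset ℕ) (G0 : Finset ℕ)
    (P : Fin (m + 1) → Finset ℕ) (rk : Fin (m + 1) → ℕ) (s : ℝ),
    1 ≤ l → 1 ≤ β → (C * β) ^ l ≤ Q → Q ^ C ≤ y → y ^ 2 < 2 ^ rk 0 →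
    (∀ k, ∀ p ∈ G k, p.Prime ∧ y < p ∧ p ≤ y ^ 2) → (∀ p ∈ G0, p.Prime ∧ y < p ∧ p ≤ y ^ 2) →
    (∀ k k', k ≠ k' → Disjoint (G k) (G k')) → (∀ k, Disjoint (G k) G0) →
    (∀ k, 1 ≤ β * rs (G k)) → 1 ≤ β * rs G0 →
    Monotone rk → (∀ i i', i ≠ i' → Disjoint (P i) (P i')) →
    (∀ i, ∀ q ∈ P i, q.Prime ∧ 2 ^ rk i ≤ q ∧ q < 2 ^ (rk i + 1) ∧ q ≤ Z) →
    (∀ i, 1 / (Q : ℝ) ^ 2 ≤ rs (P i) ∧ rs (P i) ≤ 1) → 1 ≤ ∑ i, rs (P i) → Real.log Z ≤ Q →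
    (∀ a ∈ Fintype.piFinset G, (∏ k, a k) * y ^ C ≤ r0) → Z ^ C * y ^ (l / 2) * y ^ C ≤ r0 →
    (∀ i, r0 * 2 ^ rk i ∣ B) → r0 * (y ^ l * Z) ^ C ≤ B → 2 ≤ n → 0 < s →
    ∀ (f : ℕ → ℂ) (F F' : ℕ → ℕ → ℕ → ℂ) (v e : ℝ), (∀ N, ‖f N‖ ≤ 1) →
      (∀ R c, 0 < R → F R c ∈ GX (hull A) R ∧ F' R c ∈ GX (hull A) R) →
      (∀ i, ∀ q ∈ P i, ∀ a ∈ Fintype.piFinset G,
        v ≤ pot (wt B n) (q * ∏ k, a k) f (F (r0 * 2 ^ rk i) (q * ∏ k, a k))) →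
      ∀ δ : ℕ → ℝ, (∀ k, Ep (G k) δ ≤ e) →
      (∀ i, ∀ q ∈ P i, ∀ a ∈ Fintype.piFinset G, ∀ k, ∀ c0 : ℕ, q * ∏ k, a k = c0 * a k →
        br (wt B n) (q * ∏ k, a k) (F (r0 * 2 ^ rk i) (q * ∏ k, a k) - F' (r0 * 2 ^ rk i) c0)
          (F (r0 * 2 ^ rk i) (q * ∏ k, a k) - F' (r0 * 2 ^ rk i) c0) ≤ δ (a k)) →
      ∃ a ∈ Fintype.piFinset G, ∃ u ∈ GX (hull A) (r0 * 2 ^ rk 0),
        v - 6 * s - (16 * max e 0 + 12 / (∑ i, rs (P i)) + 1 / Q) / s - 1 / Q ≤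
          pot (wt B n) (∏ k, a k) f u

/-- the plain step with explicit parameters -/
def S_Mid : Prop := ∀ A : Set (ℕ → ℂ), Ax.Sys A → ∃ C : ℕ, 0 < C ∧
  ∀ (f : ℕ → ℂ) (Q y l β lo Pm P1 P2 X : ℕ) (ρ E s : ℝ) (Ψ Ψ1 : ℕ → ℂ) (G : Fin l → Finset ℕ)
    (G0 : Finset ℕ), UCM f → Gr (hull A) (ρ * (Pm : ℝ) ^ 2) Ψ → Gr (hull A) ρ Ψ1 →
    1 ≤ l → 1 ≤ β → (C * β) ^ l ≤ Q → Q ^ C ≤ y → y ^ 2 ≤ Pm → (y : ℝ) ^ C ≤ ρ →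
    ρ * (Pm : ℝ) ^ 2 ≤ P1 → P1 ≤ P2 → Real.log P2 ≤ Q → P2 ^ C ≤ y ^ l → (y ^ l * P2) ^ C ≤ X →
    (∀ k, ∀ p ∈ G k, p.Prime ∧ y < p ∧ p ≤ y ^ 2) → (∀ p ∈ G0, p.Prime ∧ y < p ∧ p ≤ y ^ 2) →
    (∀ k k', k ≠ k' → Disjoint (G k) (G k')) → (∀ k, Disjoint (G k) G0) →
    (∀ k, 1 ≤ β * rs (G k)) → 1 ≤ β * rs G0 → y ^ l ≤ lo →
    (∀ a ∈ Fintype.piFinset G, lo ≤ ∏ k, a k ∧ ∏ k, a k ≤ y * lo) →
    0 ≤ E → (∀ k, Ep (G k) (fun p => IV.dst X Ψ1 (Up f p Ψ)) ≤ E) →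
    2 ≤ rs (Ch.pr P1 P2) → 0 < s → s ≤ 1 →
    App (hull A) f X P1 (IV.dst X f Ψ1 + C * s * Real.log X +
      C / s * (E + (1 / rs (Ch.pr P1 P2) + 1 / Q) * Real.log X + l * Real.log y + Real.log P2))

end Pool.Agent.P.MP_a14ce1_nt.Pl
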